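import Pool.Agent.Lib.MP_b2e238_gt.C.Defs
import Pool.Agent.Lib.MP_b2e238_gt.K.Dif
import Pool.Agent.Lib.MP_b2e238_gt.K.Inv

/-! The regluing map of `T² × D²`. -/

open scoped ContDiff Topology
open Set Metric Filter Function

noncomputable section

namespace Pool.Agent.Lib.MP_b2e238_gt

/-- A diffeomorphism of the line that is a translation on the left and a dilation on the right. -/
theorem cmap_line {l : ℝ} (hl : 0 < l) (u₀ : ℝ) : ∃ (f g : ℝ → ℝ) (c : ℝ), ContDiff ℝ ∞ f ∧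
    ContDiff ℝ ∞ g ∧ (∀ u, g (f u) = u) ∧ (∀ u, f (g u) = u) ∧ StrictMono f ∧
      (∀ u ≤ u₀ - 1, f u = u + c) ∧ ∀ u, u₀ ≤ u → f u = l * u := by
  let c := -(|l - 1| * (|u₀| + 1))
  let χ : ℝ → ℝ := fun u => Real.smoothTransition (u - u₀ + 1)
  have hχ : ContDiff ℝ ∞ χ := Real.smoothTransition.contDiff.comp (by fun_prop)
  have mχ : Monotone χ := fun a b h => Real.smoothTransition.monotone (by linarith)
  have z (u) (h : u ≤ u₀ - 1) : χ u = 0 := Real.smoothTransition.zero_of_nonpos (by linarith)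
  have o (u) (h : u₀ ≤ u) : χ u = 1 := Real.smoothTransition.one_of_one_le (by linarith)
  let f : ℝ → ℝ := fun u => u + c + χ u * ((l - 1) * u - c)
  have hf : ContDiff ℝ ∞ f := by fun_prop
  have f1 (u) (h : u ≤ u₀ - 1) : f u = u + c := by simp [f, z u h]
  have f2 (u) (h : u₀ ≤ u) : f u = l * u := by simp only [f, o u h]; ring
  have d (u) : 0 < deriv f u := by
    have a : HasDerivAt f (1 + (deriv χ u * ((l - 1) * u - c) + χ u * (l - 1))) u := by
      simpa using ((hasDerivAt_id u).add_const c).fun_add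
        ((hχ.differentiable (by simp) u).hasDerivAt.fun_mul
          (((hasDerivAt_id u).const_mul (l - 1)).sub_const c))
    have b : 0 ≤ deriv χ u * ((l - 1) * u - c) := by
      rcases lt_or_ge u (u₀ - 1) with h | h
      · have : χ =ᶠ[𝓝 u] fun _ => 0 := mem_of_superset (Iio_mem_nhds h) fun x k => z x (le_of_lt k)
        simp [this.deriv_eq]
      rcases lt_or_ge u₀ u with k | k
      · have : χ =ᶠ[𝓝 u] fun _ => 1 := mem_of_superset (Ioi_mem_nhds k) fun x k => o x (le_of_lt k)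
        simp [this.deriv_eq]
      refine mul_nonneg mχ.deriv_nonneg ?_
      have e : |u| ≤ |u₀| + 1 :=
        abs_le.2 ⟨by linarith [neg_abs_le u₀], by linarith [le_abs_self u₀]⟩
      have := neg_abs_le ((l - 1) * u)
      rw [abs_mul] at this
      have := mul_le_mul_of_nonneg_left e (abs_nonneg (l - 1))
      simp only [c]
      linarith
    have p : 0 ≤ χ u := Real.smoothTransition.nonneg _
    have q : χ u ≤ 1 := Real.smoothTransition.le_one _
    rw [a.deriv]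
    rcases q.eq_or_lt with q | q
    · rw [q]; linarith
    · nlinarith [mul_nonneg p hl.le]
  have m := strictMono_of_deriv_pos d
  have s : Surjective f := by
    refine hf.continuous.surjective ?_ ?_
    · refine (tendsto_id.const_mul_atTop hl).congr' ?_
      exact (eventually_ge_atTop u₀).mono fun u h => (f2 u h).symm
    · refine (tendsto_atBot_add_const_right _ c tendsto_id).congr' ?_
      exact (eventually_le_atBot (u₀ - 1)).mono fun u h => (f1 u h).symm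
  have i := (inv_on rfl isOpen_univ hf.contDiffOn m.injective.injOn fun u _ => ?_).2
  · rw [image_univ, s.range_eq, contDiffOn_univ] at i
    exact ⟨f, _, c, hf, i, fun u => m.injective.injOn.leftInvOn_invFunOn (mem_univ u),
      fun u => invFunOn_eq (by simpa using s u), m, f1, f2⟩
  · rw [(hf.differentiable (by simp) u).hasDerivAt.hasFDerivAt.fderiv]
    exact fun a b e => smul_left_injective ℝ (d u).ne' e

/-- The radial map with the profile `f` on the logarithm of the radius. -/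
def cmapR (f : ℝ → ℝ) (z : ℂ) : ℂ := Real.exp (f (Real.log ‖z‖) - Real.log ‖z‖) • z

theorem cmapR_smooth {f : ℝ → ℝ} {c u₁ : ℝ} (hf : ContDiff ℝ ∞ f) (h : ∀ u ≤ u₁, f u = u + c) :
    ContDiff ℝ ∞ (cmapR f) := by
  refine contDiff_iff_contDiffAt.2 fun z => ?_
  rcases eq_or_ne z 0 with rfl | n
  · refine ((contDiff_const (c := Real.exp c)).smul contDiff_id).contDiffAt.congr_of_eventuallyEq
      (mem_of_superset (ball_mem_nhds 0 (Real.exp_pos u₁)) fun w hw => ?_)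
    rcases eq_or_ne w 0 with rfl | n
    · simp [cmapR]
    · have := h _ ((Real.log_le_iff_le_exp (norm_pos_iff.2 n)).2 (mem_ball_zero_iff.1 hw).le)
      simp [cmapR, this]
  · have a : ContDiffAt ℝ ∞ (fun w : ℂ => Real.log ‖w‖) z :=
      (contDiffAt_id.norm ℝ n).log (norm_ne_zero_iff.2 n)
    exact ((hf.contDiffAt.comp z a).sub a).exp.smul contDiffAt_id

theorem cmapR_norm (f : ℝ → ℝ) {z : ℂ} (n : z ≠ 0) :
    ‖cmapR f z‖ = Real.exp (f (Real.log ‖z‖)) := by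
  rw [cmapR, norm_smul, Real.norm_of_nonneg (Real.exp_pos _).le, Real.exp_sub,
    Real.exp_log (norm_pos_iff.2 n), div_mul_cancel₀ _ (norm_ne_zero_iff.2 n)]

theorem cmapR_inv {f g : ℝ → ℝ} (h : ∀ u, g (f u) = u) (z : ℂ) : cmapR g (cmapR f z) = z := by
  rcases eq_or_ne z 0 with rfl | n
  · simp [cmapR]
  · rw [cmapR, cmapR_norm f n, Real.log_exp, h, cmapR, smul_smul, ← Real.exp_add]
    simp

theorem cmapR_lt {f : ℝ → ℝ} (m : StrictMono f) (u : ℝ) (z : ℂ) :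
    (‖cmapR f z‖ < Real.exp (f u) ↔ ‖z‖ < Real.exp u) ∧
      (Real.exp (f u) < ‖cmapR f z‖ ↔ Real.exp u < ‖z‖) := by
  rcases eq_or_ne z 0 with rfl | n
  · simp [cmapR, Real.exp_pos, (Real.exp_pos _).not_gt]
  · rw [cmapR_norm f n, Real.exp_lt_exp, Real.exp_lt_exp, m.lt_iff_lt, m.lt_iff_lt,
      Real.log_lt_iff_lt_exp (norm_pos_iff.2 n), Real.lt_log_iff_exp_lt (norm_pos_iff.2 n)]
    exact ⟨Iff.rfl, Iff.rfl⟩

theorem cmap_arg {z : ℂ} (h : z ∈ Complex.slitPlane) : ContDiffAt ℝ ∞ Complex.arg z := by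
  have := Complex.imCLM.contDiff.contDiffAt.comp z
    ((Complex.contDiffAt_log (n := ∞) h).restrict_scalars ℝ)
  convert this using 1
  ext w
  simp [Complex.log_im]

/-- The angle with its jump spread over a small arc. -/
def cmapH (D : ℝ → ℝ) (z : ℂ) : ℝ := z.arg / (2 * Real.pi) - D (z.arg / (2 * Real.pi))

theorem cmapH_smooth {D : ℝ → ℝ} (hD : ContDiff ℝ ∞ D) (h0 : ∀ v ≤ -(1 / 4 : ℝ), D v = 0)
    (h1 : ∀ v, (1 / 4 : ℝ) ≤ v → D v = 1) {z : ℂ} (n : z ≠ 0) : ContDiffAt ℝ ∞ (cmapH D) z := by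
  have p := Real.pi_pos
  by_cases h : z ∈ Complex.slitPlane
  · have a := (cmap_arg h).div_const (2 * Real.pi)
    exact a.sub (hD.contDiffAt.comp z a)
  have r : z.re < 0 := by
    rw [Complex.mem_slitPlane_iff, not_or, not_lt, not_not] at h
    exact h.1.lt_of_ne fun k => n (Complex.ext k h.2)
  have a : ContDiffAt ℝ ∞ (fun w : ℂ => (-w).arg / (2 * Real.pi) - 1 / 2) z :=
    (((cmap_arg (Or.inl (by simpa using r))).comp z contDiffAt_id.neg).div_const _).sub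
      contDiffAt_const
  refine a.congr_of_eventuallyEq (mem_of_superset
    ((isOpen_lt Complex.continuous_re continuous_const).mem_nhds r) fun w (hw : w.re < 0) => ?_)
  have b : Real.pi / 2 < |w.arg| := not_le.1 fun k =>
    (Complex.abs_arg_le_pi_div_two_iff.1 k).not_gt hw
  change cmapH D w = (-w).arg / (2 * Real.pi) - 1 / 2
  rcases lt_or_ge w.im 0 with k | k
  · rw [abs_of_neg (Complex.arg_neg_iff.2 k)] at b
    rw [cmapH, h0 _ (by rw [div_le_iff₀ (by positivity)]; linarith),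
      Complex.arg_neg_eq_arg_add_pi_iff.2 (Or.inl k)]
    field_simp
    ring
  · rw [abs_of_nonneg (Complex.arg_nonneg_iff.2 k)] at b
    rw [cmapH, h1 _ (by rw [le_div_iff₀ (by positivity)]; linarith),
      Complex.arg_neg_eq_arg_sub_pi_iff.2 (k.lt_or_eq.imp id fun e => ⟨e.symm, hw⟩)]
    field_simp
    ring

theorem cmap_zpow (k : ℤ) (t : ℝ) : ex (k * t) = ex t ^ k := by
  rw [ex, ex, ← Complex.exp_int_mul]
  congr 1
  push_cast
  ring

theorem cmap_arg_ex {v : ℝ} (h : v ∈ Ioc (-(1 / 2) : ℝ) (1 / 2)) :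
    (ex v).arg / (2 * Real.pi) = v := by
  have p := Real.pi_pos
  have := Complex.arg_mul_cos_add_sin_mul_I one_pos (θ := 2 * Real.pi * v)
    ⟨by nlinarith [h.1], by nlinarith [h.2]⟩
  rw [← Complex.exp_mul_I, Complex.ofReal_one, one_mul] at this
  rw [ex, show (2 * Real.pi * v : ℂ) = (2 * Real.pi * v : ℝ) by push_cast; rfl, this]
  field_simp

theorem cmap (k : ℤ) {δ ε₁ ε₂ κ κ' : ℝ} (hδ : 0 < δ) (hδ' : δ < 1 / 4) (h₂ : 0 < ε₂)
    (h₁ : ε₂ < ε₁) (hκ : 0 < κ) (hκ' : 0 < κ') :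
    ∃ (D : ℝ → ℝ) (C C' : C3 → C3), ContDiff ℝ ∞ D ∧ (∀ v, v ≤ -(δ / 2) → D v = 0) ∧
      (∀ v, δ / 2 ≤ v → D v = 1) ∧
      Dif (S1 ×ˢ S1 ×ˢ ball 0 (ε₁ ^ κ')) (S1 ×ˢ S1 ×ˢ ball 0 (ε₁ ^ κ)) C C' ∧
      (∀ p : C3, ε₂ ^ κ < ‖p.2.2‖ → ε₂ ^ κ' < ‖(C' p).2.2‖) ∧
      ∀ (a b : ℂ), ∀ ρ ∈ Ioo ε₂ ε₁,
        (∀ v ∈ Ioo (-δ) δ, C (a, b, ((ρ ^ κ' : ℝ) : ℂ) * ex v) =
          (a * ex v ^ (2 * k) * ex (-(k * D v)) ^ 2, b, ((ρ ^ κ : ℝ) : ℂ) * ex v)) ∧
        ∀ q ∈ S1, q ∉ ex '' Ioo (-δ) δ → C (a, b, ((ρ ^ κ' : ℝ) : ℂ) * q) =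
          (a * q ^ (2 * k), b, ((ρ ^ κ : ℝ) : ℂ) * q) := by
  obtain ⟨f, g, c, hf, hg, gf, fg, m, f1, f2⟩ := cmap_line (div_pos hκ hκ') (Real.log ε₂ * κ')
  let D : ℝ → ℝ := fun v => Real.smoothTransition ((v + δ / 2) / δ)
  have hD : ContDiff ℝ ∞ D := Real.smoothTransition.contDiff.comp (by fun_prop)
  have D0 (v) (h : v ≤ -(δ / 2)) : D v = 0 :=
    Real.smoothTransition.zero_of_nonpos (div_nonpos_of_nonpos_of_nonneg (by linarith) hδ.le)
  have D1 (v) (h : δ / 2 ≤ v) : D v = 1 :=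
    Real.smoothTransition.one_of_one_le ((one_le_div hδ).2 (by linarith))
  have s : 0 < ε₂ ^ κ' := Real.rpow_pos_of_pos h₂ _
  let A : ℂ → ℝ := fun z => Real.smoothTransition (2 * ‖z‖ ^ 2 / (ε₂ ^ κ') ^ 2 - 1) * cmapH D z
  have hA : ContDiff ℝ ∞ A := by
    have q : ContDiff ℝ ∞ fun z : ℂ => 2 * ‖z‖ ^ 2 / (ε₂ ^ κ') ^ 2 - 1 :=
      ((contDiff_const.mul (contDiff_norm_sq ℝ)).div_const _).sub contDiff_const
    refine contDiff_iff_contDiffAt.2 fun z => ?_
    rcases eq_or_ne z 0 with rfl | n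
    · refine (contDiffAt_const (c := (0 : ℝ))).congr_of_eventuallyEq (mem_of_superset
        ((isOpen_lt q.continuous (continuous_const (y := (0 : ℝ)))).mem_nhds (by simp))
        fun w hw => ?_)
      exact mul_eq_zero_of_left (Real.smoothTransition.zero_of_nonpos (le_of_lt hw)) _
    · exact (Real.smoothTransition.contDiff.comp q).contDiffAt.mul (cmapH_smooth hD
        (fun v h => D0 v (by linarith)) (fun v h => D1 v (by linarith)) n)
  have hR := cmapR_smooth hf f1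
  have hR' : ContDiff ℝ ∞ (cmapR g) := cmapR_smooth (c := -c) (u₁ := Real.log ε₂ * κ' - 1 + c) hg
    fun u h => by rw [← gf (u + -c), f1 _ (by linarith)]; simp
  have e (ρ) (h : ε₂ ≤ ρ) : ρ ^ κ' = Real.exp (Real.log ρ * κ') ∧
      ρ ^ κ = Real.exp (f (Real.log ρ * κ')) := by
    rw [f2 _ (mul_le_mul_of_nonneg_right (Real.log_le_log h₂ h) hκ'.le),
      Real.rpow_def_of_pos (h₂.trans_le h), Real.rpow_def_of_pos (h₂.trans_le h)]
    exact ⟨rfl, by congr 1; field_simp⟩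
  have b (z : ℂ) : cmapR f z ∈ ball (0 : ℂ) (ε₁ ^ κ) ↔ z ∈ ball (0 : ℂ) (ε₁ ^ κ') := by
    rw [mem_ball_zero_iff, mem_ball_zero_iff, (e _ h₁.le).1, (e _ h₁.le).2, (cmapR_lt m _ _).1]
  have u (a : ℂ) (t : ℝ) (h : a ∈ S1) : a * ex t ∈ S1 := by
    rw [mem_sphere_zero_iff_norm] at h ⊢
    rw [norm_mul, h, norm_ex, one_mul]
  have x (t : ℝ) : ex t * ex (-t) = 1 ∧ ex (-t) * ex t = 1 := by
    rw [← ex_add, ← ex_add, add_neg_cancel, neg_add_cancel]
    exact ⟨by simp [ex], by simp [ex]⟩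
  have y (a b : ℂ) (ρ) (h : ρ ∈ Ioo ε₂ ε₁) (q : ℂ) (hq : ‖q‖ = 1) :
      A (((ρ ^ κ' : ℝ) : ℂ) * q) = cmapH D q ∧
        cmapR f (((ρ ^ κ' : ℝ) : ℂ) * q) = ((ρ ^ κ : ℝ) : ℂ) * q := by
    have p : 0 < ρ ^ κ' := Real.rpow_pos_of_pos (h₂.trans h.1) _
    have n : ‖((ρ ^ κ' : ℝ) : ℂ) * q‖ = ρ ^ κ' := by
      rw [norm_mul, hq, mul_one, Complex.norm_real, Real.norm_of_nonneg p.le]
    have l : ε₂ ^ κ' ≤ ρ ^ κ' := Real.rpow_le_rpow h₂.le h.1.le hκ'.le
    constructor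
    · simp only [A]
      rw [n, Real.smoothTransition.one_of_one_le, one_mul, cmapH, cmapH, Complex.arg_real_mul _ p]
      rw [le_sub_iff_add_le, le_div_iff₀ (by positivity)]
      nlinarith
    · rw [cmapR, n, (e _ h.1.le).2, (e _ h.1.le).1, Real.log_exp, Complex.real_smul, ← mul_assoc,
        ← Complex.ofReal_mul, ← Real.exp_add, sub_add_cancel]
  refine ⟨D, fun p => (p.1 * ex (2 * k * A p.2.2), p.2.1, cmapR f p.2.2),
    fun p => (p.1 * ex (-(2 * k * A (cmapR g p.2.2))), p.2.1, cmapR g p.2.2), hD, D0, D1,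
    ⟨ContDiff.contDiffOn ?_, ContDiff.contDiffOn ?_,
      fun p h => ⟨u _ _ h.1, h.2.1, (b _).2 h.2.2⟩,
      fun p h => ⟨u _ _ h.1, h.2.1, (b _).1 (by rw [cmapR_inv fg]; exact h.2.2)⟩,
      fun p _ => ?_, fun p _ => ?_⟩, fun p h => ?_, fun a b ρ h => ⟨fun v hv => ?_, fun q hq n => ?_⟩⟩
  · have := contDiff_ex
    fun_prop
  · have := contDiff_ex
    fun_prop
  · simp only [cmapR_inv gf, mul_assoc p.1, (x _).1, mul_one]
  · simp only [cmapR_inv fg, mul_assoc p.1, (x _).2, mul_one]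
  · rw [(e _ le_rfl).1, ← (cmapR_lt m _ _).2, ← (e _ le_rfl).2]
    simpa only [cmapR_inv fg] using h
  · obtain ⟨y1, y2⟩ := y a b ρ h _ (norm_ex v)
    simp only [y1, y2]
    rw [cmapH, cmap_arg_ex ⟨by linarith [hv.1], by linarith [hv.2]⟩, mul_assoc a, ← cmap_zpow,
      pow_two, ← ex_add, ← ex_add]
    congr 3
    push_cast
    ring
  · have hq := mem_sphere_zero_iff_norm.1 hq
    obtain ⟨y1, y2⟩ := y a b ρ h _ hq
    simp only [y1, y2]
    have t := ex_arg hq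
    rw [cmapH]
    generalize q.arg / (2 * Real.pi) = v at t
    subst t
    rw [← cmap_zpow]
    rcases le_or_gt v (-δ) with l | l
    · rw [D0 v (by linarith)]
      simp
    · rw [D1 v (by linarith [not_lt.1 fun k => n ⟨v, ⟨l, k⟩, rfl⟩]),
        show 2 * (k : ℝ) * (v - 1) = (2 * k : ℤ) * v + (-(2 * k) : ℤ) by push_cast; ring,
        ex_add, ex_int, mul_one]

end Pool.Agent.Lib.MP_b2e238_gt
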