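import Pool.Agent.Lib.MP_b2e238_gt.TL.Xi

/-! Neighbourhoods of the core torus of a filling. -/

open scoped ContDiff Topology
open Set Metric

noncomputable section

namespace Pool.Agent.Lib.MP_b2e238_gt.TL

variable {U V : Type} [NormedAddCommGroup U] [NormedSpace ℝ U] [NormedAddCommGroup V]
  [NormedSpace ℝ V]

theorem polar {κ : ℝ} (hκ : 0 < κ) {z : ℂ} (h : z ≠ 0) :
    ∃ ρ : ℝ, 0 < ρ ∧ ρ ^ κ = ‖z‖ ∧ ∃ q ∈ S1, z = ((ρ ^ κ : ℝ) : ℂ) * q := by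
  have e : (‖z‖ ^ κ⁻¹) ^ κ = ‖z‖ := Real.rpow_inv_rpow (norm_nonneg _) hκ.ne'
  exact ⟨‖z‖ ^ κ⁻¹, Real.rpow_pos_of_pos (norm_pos_iff.2 h) _, e, ph z, ph_S1 h,
    by rw [e, norm_mul_ph h]⟩

theorem S1.ne {q : ℂ} (h : q ∈ S1) : q ≠ 0 := fun k => by simp [k] at h

theorem S1.mul {a q : ℂ} (ha : a ∈ S1) (h : q ∈ S1) : a * q ∈ S1 := by
  have h1 : ‖a‖ = 1 := by simpa using ha
  have h2 : ‖q‖ = 1 := by simpa using h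
  simp [h1, h2]

theorem S1.zpow {q : ℂ} (h : q ∈ S1) (m : ℤ) : q ^ m ∈ S1 := by
  have h2 : ‖q‖ = 1 := by simpa using h
  simp [norm_zpow, h2]

theorem core_comp (j : U → V) (T : ℝ × E3 → U) : core (j ∘ T) = j '' core T := by
  simp only [core, ← range_comp]; rfl

/-- What the twist lemma uses of a filling. -/
theorem fill_facts {E : Set U} {Γ : Set U} {cl : ℝ × C3 → U} {M O : Set V} {j : U → V} {m m' : ℤ}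
    {r : ℝ} (h : Fill E cl M O j m m') (hΓ : Γ ⊆ E)
    (hcl : MapsTo cl (Ioo 0 r ×ˢ S1 ×ˢ S1 ×ˢ S1) (E \ Γ)) :
    Emb (E \ Γ) (M \ j '' Γ) j ∧ ∃ (c : C3 → V) (i : V → U) (ε κ : ℝ), 0 < ε ∧ 0 < κ ∧
      (∀ x ∈ E, i (j x) = x) ∧
      (∀ a ∈ S1, ∀ b ∈ S1, ∀ q ∈ S1, ∀ ρ ∈ Ioo 0 ε,
        j (cl (ρ, a * q ^ m, b * q ^ m', q)) = c (a, b, ((ρ ^ κ : ℝ) : ℂ) * q)) ∧
      (∀ t, 0 < t → t ≤ ε → t ≤ r → Emb (S1 ×ˢ S1 ×ˢ ball 0 (t ^ κ)) (M \ j '' Γ) c) ∧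
      ∀ t, 0 < t → t < ε → t < r →
        (∀ x ∈ E, j x ∈ c '' (S1 ×ˢ S1 ×ˢ closedBall 0 (t ^ κ)) ↔
          x ∈ cl '' (Ioc 0 t ×ˢ S1 ×ˢ S1 ×ˢ S1)) ∧
        Dif ((E \ Γ) \ cl '' (Ioc 0 t ×ˢ S1 ×ˢ S1 ×ˢ S1))
          ((M \ j '' Γ) \ c '' (S1 ×ˢ S1 ×ˢ closedBall 0 (t ^ κ))) j i := by
  obtain ⟨_, ⟨i, dj⟩, c, ε, κ, hε, hκ, ec, cO, cj⟩ := h
  have cS : IsCompact S1 := isCompact_sphere _ _
  have clO : IsClosed O := by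
    rw [← cO]
    exact ((cS.prod (cS.prod isCompact_singleton)).image_of_continuousOn
      (ec.smooth.continuousOn.mono (prod_mono Subset.rfl (prod_mono Subset.rfl
        (singleton_subset_iff.2 (mem_ball_self (Real.rpow_pos_of_pos hε _))))))).isClosed
  have nO : ∀ x ∈ E, ∀ a ∈ S1, ∀ b ∈ S1, j x ≠ c (a, b, 0) := fun x hx a ha b hb e =>
    (dj.mF hx).2 (cO ▸ ⟨(a, b, 0), ⟨ha, hb, rfl⟩, e.symm⟩)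
  have iff : ∀ t, 0 < t → t < ε → t < r → ∀ x ∈ E, j x ∈ c '' (S1 ×ˢ S1 ×ˢ closedBall 0 (t ^ κ)) ↔
      x ∈ cl '' (Ioc 0 t ×ˢ S1 ×ˢ S1 ×ˢ S1) := by
    intro t ht tε tr x hx
    constructor
    · rintro ⟨⟨a, b, z⟩, ⟨ha, hb, hz⟩, e⟩
      obtain ⟨ρ, h0, h1, q, hq, h2⟩ := polar hκ (z := z) fun k => nO x hx a ha b hb (k ▸ e.symm)
      have h3 : ρ ≤ t := (Real.rpow_le_rpow_iff h0.le ht.le hκ).1 (by rw [h1]; simpa using hz)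
      have mm : (ρ, a * q ^ m, b * q ^ m', q) ∈ Ioo 0 r ×ˢ S1 ×ˢ S1 ×ˢ S1 :=
        ⟨⟨h0, h3.trans_lt tr⟩, S1.mul ha (S1.zpow hq _), S1.mul hb (S1.zpow hq _), hq⟩
      refine ⟨_, ⟨⟨h0, h3⟩, mm.2⟩, dj.injOn (hcl mm).1 hx ?_⟩
      rw [cj a ha b hb q hq ρ ⟨h0, h3.trans_lt tε⟩, ← h2, e]
    · rintro ⟨⟨ρ, a, b, q⟩, ⟨hρ, ha, hb, hq⟩, rfl⟩
      have := cj (a * q ^ (-m)) (S1.mul ha (S1.zpow hq _)) (b * q ^ (-m'))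
        (S1.mul hb (S1.zpow hq _)) q hq ρ ⟨hρ.1, hρ.2.trans_lt tε⟩
      rw [mul_assoc, mul_assoc, ← zpow_add₀ (S1.ne hq), ← zpow_add₀ (S1.ne hq), neg_add_cancel,
        neg_add_cancel, zpow_zero, mul_one, mul_one] at this
      refine ⟨_, ⟨S1.mul ha (S1.zpow hq _), S1.mul hb (S1.zpow hq _), ?_⟩, this.symm⟩
      rw [mem_closedBall_zero_iff, (ph_mul (Real.rpow_pos_of_pos hρ.1 _) hq).1]
      exact Real.rpow_le_rpow hρ.1.le hρ.2 hκ.le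
  refine ⟨(dj.diff hΓ).emb ((opn_diff clO).diff _), c, i, ε, κ, hε, hκ, dj.gf, cj,
    fun t ht tε tr => ?_, fun t ht tε tr => ⟨iff t ht tε tr, ?_⟩⟩
  · have sub : ball (0 : ℂ) (t ^ κ) ⊆ ball 0 (ε ^ κ) :=
      ball_subset_ball (Real.rpow_le_rpow ht.le tε hκ.le)
    have o : Opn (S1 ×ˢ S1 ×ˢ ball (0 : ℂ) (t ^ κ)) (S1 ×ˢ S1 ×ˢ ball 0 (ε ^ κ)) := by
      refine opn_iff.2 ⟨(fun u => u.2.2) ⁻¹' ball 0 (t ^ κ), isOpen_ball.preimage (by fun_prop), ?_⟩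
      ext u
      exact ⟨fun hu => ⟨⟨hu.1, hu.2.1, sub hu.2.2⟩, hu.2.2⟩, fun hu => ⟨hu.1.1, hu.1.2.1, hu.2⟩⟩
    refine (ec.mono o).down sdiff_subset ?_
    rintro ⟨a, b, z⟩ ⟨ha, hb, hz⟩
    refine ⟨ec.mapsTo ⟨ha, hb, sub hz⟩, ?_⟩
    rintro ⟨x, hx, e⟩
    obtain ⟨ρ, h0, h1, q, hq, h2⟩ := polar hκ (z := z) fun k => nO x (hΓ hx) a ha b hb (k ▸ e)
    have h3 : ρ < t := (Real.rpow_lt_rpow_iff h0.le ht.le hκ).1 (by rw [h1]; simpa using hz)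
    have mm : (ρ, a * q ^ m, b * q ^ m', q) ∈ Ioo 0 r ×ˢ S1 ×ˢ S1 ×ˢ S1 :=
      ⟨⟨h0, h3.trans_le tr⟩, S1.mul ha (S1.zpow hq _), S1.mul hb (S1.zpow hq _), hq⟩
    refine (hcl mm).2 (dj.injOn (hΓ hx) (hcl mm).1 ?_ ▸ hx)
    rw [cj a ha b hb q hq ρ ⟨h0, h3.trans_le tε⟩, ← h2, e]
  · have nb : ∀ y ∈ (M \ j '' Γ) \ c '' (S1 ×ˢ S1 ×ˢ closedBall 0 (t ^ κ)), y ∈ M \ O :=
      fun y hy => ⟨hy.1.1, fun k => hy.2 (image_mono (prod_mono Subset.rfl (prod_mono Subset.rfl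
        (singleton_subset_iff.2 (mem_closedBall_self (Real.rpow_pos_of_pos ht _).le))))
        (cO ▸ k))⟩
    refine dj.restrict (fun x hx => hx.1.1) nb (fun x hx => ⟨⟨(dj.mF hx.1.1).1, ?_⟩,
      fun k => hx.2 ((iff t ht tε tr x hx.1.1).1 k)⟩) fun y hy => ⟨⟨dj.mG (nb y hy), fun k =>
        hy.1.2 ⟨_, k, dj.fg y (nb y hy)⟩⟩, fun k => hy.2 ?_⟩
    · rintro ⟨x', hx', e⟩
      exact hx.1.2 (dj.injOn (hΓ hx') hx.1.1 e ▸ hx')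
    · have := (iff t ht tε tr _ (dj.mG (nb y hy))).2 k
      rwa [dj.fg y (nb y hy)] at this

end Pool.Agent.Lib.MP_b2e238_gt.TL
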