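import Pool.Agent.Lib.MP_b2e238_gt.TL.Psi
import Pool.Agent.Lib.MP_b2e238_gt.TL.Fil
import Pool.Agent.Lib.MP_b2e238_gt.TL.Cmap
import Pool.Agent.Lib.MP_b2e238_gt.K.Ring

/-! The twist lemma. -/

open scoped ContDiff Topology
open Set Metric

namespace Pool.Agent.Lib.MP_b2e238_gt

open TL

variable {U V W : Type} [NormedAddCommGroup U] [NormedSpace ℝ U] [NormedAddCommGroup V]
  [NormedSpace ℝ V] [NormedAddCommGroup W] [NormedSpace ℝ W] [FiniteDimensional ℝ U]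
  [FiniteDimensional ℝ V] [FiniteDimensional ℝ W]

/-- The twist lemma: a thickened disc changes the filling slope by even multiples of its boundary. -/
theorem twist {E : Set U} {T : ℝ × E3 → U} {r : ℝ} {cl : ℝ × C3 → U} {M O : Set V} {M' O' : Set W}
    {j : U → V} {j' : U → W} {m m' : ℤ} (k : ℤ) (hT : Tb E T r) (hD : Disc E T cl)
    (h : Fill E cl M O j m m') (h' : Fill E cl M' O' j' (m + 2 * k) m')
    (z : Surg M (j ∘ T) S4) : Surg M' (j' ∘ T) S4 := by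
  obtain ⟨s, N, e, e', F, G, hs, oN, de, dF, cp⟩ := z
  rw [core_comp] at dF
  have cS : IsCompact S1 := isCompact_sphere _ _
  have hΓ : core T ⊆ E := by
    rintro _ ⟨t, rfl⟩
    exact hT.mem t (by simpa using hT.1)
  have he : Emb (ball 0 s ×ˢ S2) S4 e := de.emb oN
  have s0 : ∀ {a : ℝ}, 0 < a → ({0} : Set ℂ) ×ˢ S2 ⊆ ball 0 a ×ˢ S2 := fun ha =>
    prod_mono (singleton_subset_iff.2 (mem_ball_self ha)) Subset.rfl
  have clS : IsClosed (e '' ({0} ×ˢ S2)) := ((isCompact_singleton.prod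
    isCompact_S2).image_of_continuousOn (he.smooth.continuousOn.mono (s0 hs))).isClosed
  have eF : Emb (M \ j '' core T) S4 F := dF.emb (opn_diff clS)
  have ej : Emb (E \ core T) (M \ j '' core T) j :=
    (fill_facts (r := 0) h hΓ fun u hu => absurd (hu.1.1.trans hu.1.2) (lt_irrefl _)).1
  have hΦ : Emb (E \ core T) S4 (F ∘ j) := ej.comp eF
  have dj : ∀ x ∈ E \ core T, (F ∘ j) x ∉ e '' ({0} ×ˢ S2) := fun x hx => (dF.mF (ej.mapsTo hx)).2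
  obtain ⟨r₀, δ, Ξ, hr, hδ, hδ', hcl, hΞ, Ξ1, Ξ2⟩ := xi hD hs hΦ he dj cp
  obtain ⟨R, hR, HΨ⟩ := psi hδ hΞ
  obtain ⟨-, c, i, ε, κ, hε, hκ, ij, cj, ec, hc⟩ := fill_facts h hΓ hcl.mapsTo
  obtain ⟨ej', c', i', ε', κ', hε', hκ', ij', cj', ec', hc'⟩ := fill_facts h' hΓ hcl.mapsTo
  obtain ⟨a₁, p₁, aε, aε', ar, aR⟩ : ∃ a : ℝ, 0 < a ∧ a ≤ ε ∧ a ≤ ε' ∧ a ≤ r₀ ∧ a ≤ R⁻¹ :=
    ⟨min (min ε ε') (min r₀ R⁻¹), lt_min (lt_min hε hε') (lt_min hr (inv_pos.2 hR)),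
      (min_le_left _ _).trans (min_le_left _ _), (min_le_left _ _).trans (min_le_right _ _),
      (min_le_right _ _).trans (min_le_left _ _), (min_le_right _ _).trans (min_le_right _ _)⟩
  obtain ⟨a₂, p₂, lt⟩ : ∃ a : ℝ, 0 < a ∧ a < a₁ := ⟨a₁ / 2, by linarith, by linarith⟩
  obtain ⟨D, C, C', cD, D0, D1, dC, C'1, C1⟩ := cmap k hδ hδ' p₂ lt hκ hκ'
  obtain ⟨iK, d2⟩ := hc a₂ p₂ (by linarith) (by linarith)
  obtain ⟨iK', d2'⟩ := hc' a₂ p₂ (by linarith) (by linarith)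
  have e1 := ec a₁ p₁ aε (by linarith)
  have e1' := ec' a₁ p₁ aε' (by linarith)
  have sb : ∀ {x : ℝ}, 0 < x → S1 ×ˢ S1 ×ˢ closedBall (0 : ℂ) (a₂ ^ x) ⊆
      S1 ×ˢ S1 ×ˢ ball (0 : ℂ) (a₁ ^ x) := fun hx => prod_mono Subset.rfl (prod_mono Subset.rfl
    (closedBall_subset_ball (Real.rpow_lt_rpow p₂.le lt hx)))
  have cB : ∀ x : ℝ, IsCompact (S1 ×ˢ S1 ×ˢ closedBall (0 : ℂ) x) := fun x =>
    cS.prod (cS.prod (isCompact_closedBall _ _))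
  set K := c '' (S1 ×ˢ S1 ×ˢ closedBall 0 (a₂ ^ κ)) with hK
  set K' := c' '' (S1 ×ˢ S1 ×ˢ closedBall 0 (a₂ ^ κ')) with hK'
  set En := cl '' (Ioc 0 a₂ ×ˢ S1 ×ˢ S1 ×ˢ S1) with hEn
  set Sg := e '' ({0} ×ˢ S2) with hSg
  have KA : K ⊆ M \ j '' core T := (image_mono (sb hκ)).trans e1.mapsTo.image_subset
  have cK : IsCompact K := (cB _).image_of_continuousOn (e1.smooth.continuousOn.mono (sb hκ))
  have cK' : IsClosed K' :=
    ((cB _).image_of_continuousOn (e1'.smooth.continuousOn.mono (sb hκ'))).isClosed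
  have cFK : IsClosed (F '' K) :=
    (cK.image_of_continuousOn (eF.smooth.continuousOn.mono KA)).isClosed
  have FK : ∀ x ∈ E \ core T, (F ∘ j) x ∈ F '' K ↔ x ∈ En := fun x hx => by
    rw [← iK x hx.1]
    exact eF.injOn.mem_image_iff KA (ej.mapsTo hx)
  have SK : ∀ y ∈ Sg, y ∉ F '' K := by
    rintro y hy ⟨x, hx, rfl⟩
    exact (dF.mF (KA hx)).2 hy
  have EnS : En ⊆ cl '' (Ioo 0 r₀ ×ˢ S1 ×ˢ S1 ×ˢ S1) :=
    image_mono (prod_mono (fun x hx => ⟨hx.1, by linarith [hx.2]⟩) Subset.rfl)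
  have r1 : r₀⁻¹ < a₂⁻¹ := (inv_lt_inv₀ hr p₂).2 (by linarith)
  have R1 : R ≤ a₁⁻¹ := (le_inv_comm₀ hR p₁).2 aR
  have R2 : a₁⁻¹ < a₂⁻¹ := (inv_lt_inv₀ p₁ p₂).2 lt
  obtain ⟨Ψ, Ψ', dΨ, Ψ1, Ψ2⟩ := HΨ (fun v => -(k * D v)) (contDiff_const.mul cD).neg
    (fun v hv => by
      rcases le_abs.1 hv with hv | hv
      · rw [D1 v hv]; simpa using ex_int (-k)
      · rw [D0 v (by linarith)]; simpa using ex_int 0)
    a₂⁻¹ (R1.trans R2.le) (S4 \ F '' K) sdiff_subset (fun p hp _ => by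
      by_cases kk : r₀⁻¹ < ‖p.1‖
      · have m1 := (emb_k1 hr hδ').mapsTo ⟨hp, kk⟩
        have n0 : 0 < ‖p.1‖ := (inv_pos.2 hr).trans kk
        rw [mem_sdiff, Ξ1 p hp kk, FK _ (hcl.mapsTo m1), hEn, hcl.injOn.mem_image_iff
          (prod_mono (fun x hx => ⟨hx.1, by linarith [hx.2]⟩) Subset.rfl) m1]
        constructor
        · rintro ⟨_, hn⟩
          by_contra hh
          exact hn ⟨⟨m1.1.1, (inv_le_comm₀ n0 p₂).2 (not_lt.1 hh)⟩, m1.2⟩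
        · intro hh
          exact ⟨hΦ.mapsTo (hcl.mapsTo m1), fun hn =>
            absurd ((inv_le_comm₀ n0 p₂).1 hn.1.2) (not_le.2 hh)⟩
      · refine iff_of_true ⟨hΞ.mapsTo hp, ?_⟩ ((not_lt.1 kk).trans_lt r1)
        rcases Ξ2 p hp (not_lt.1 kk) with hh | ⟨x, hx, hn, hh⟩
        · exact SK _ hh
        · rw [hh, FK x hx]; exact fun hh => hn (EnS hh))
  have oY : Opn (S4 \ F '' K) S4 := opn_diff cFK
  have SY : Sg ⊆ S4 \ F '' K := fun y hy =>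
    ⟨((image_mono (s0 hs)).trans he.mapsTo.image_subset) hy, SK y hy⟩
  obtain ⟨s', ps, ss, ms⟩ := he.shrink hs oY fun u hu => SY (mem_image_of_mem _ hu)
  -- the outer piece
  have d3 : Dif ((M \ j '' core T) \ K) ((S4 \ F '' K) \ Sg) F G := by
    rw [sdiff_right_comm S4]; exact dF.diff KA
  have F2 := ((d2'.symm.trans d2).trans d3).trans (dΨ.diff SY)
  -- the inner piece
  obtain ⟨o1, b, d1⟩ := e1
  obtain ⟨o1', b', d1'⟩ := e1'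
  have F1 := ((d1'.symm.trans dC).trans d1).trans (dF.mono o1.1)
  have eq : EqOn (F ∘ c ∘ C ∘ b') (Ψ ∘ F ∘ j ∘ i')
      (c' '' (S1 ×ˢ S1 ×ˢ ball 0 (a₁ ^ κ')) ∩ ((M' \ j' '' core T) \ K')) := by
    rintro _ ⟨⟨⟨x, y, w⟩, hu, rfl⟩, -, hn⟩
    have hx : x ∈ S1 := hu.1
    have hy : y ∈ S1 := hu.2.1
    have hw : w ∈ ball (0 : ℂ) (a₁ ^ κ') := hu.2.2
    have w2 : a₂ ^ κ' < ‖w‖ := by
      by_contra hh
      exact hn ⟨_, ⟨hx, hy, by simpa using not_lt.1 hh⟩, rfl⟩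
    obtain ⟨ρ, h0, h1, q, hq, rfl⟩ := polar hκ' (z := w)
      (norm_pos_iff.1 ((Real.rpow_pos_of_pos p₂ _).trans w2))
    have ρ1 : ρ < a₁ := (Real.rpow_lt_rpow_iff h0.le p₁.le hκ').1 (by rw [h1]; simpa using hw)
    have ρ2 : a₂ < ρ := (Real.rpow_lt_rpow_iff p₂.le h0.le hκ').1 (by rw [h1]; exact w2)
    have mx := S1.mul hx (S1.zpow hq (m + 2 * k))
    have my := S1.mul hy (S1.zpow hq m')
    have mm : (ρ, x * q ^ (m + 2 * k), y * q ^ m', q) ∈ Ioo 0 (2 * r₀) ×ˢ S1 ×ˢ S1 ×ˢ S1 :=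
      ⟨⟨h0, by linarith⟩, mx, my, hq⟩
    simp only [Function.comp]
    rw [d1'.gf _ ⟨hx, hy, hw⟩, ← cj' x hx y hy q hq ρ ⟨h0, by linarith⟩, ij' _ (hcl.mapsTo mm).1]
    by_cases qa : q ∈ OA δ
    · obtain ⟨v, hv, rfl⟩ : ∃ v ∈ Ioo (-δ) δ, ex v = q := ⟨ag q, qa.2, ex_ag hq⟩
      have ri : 0 < ρ⁻¹ := inv_pos.2 h0
      have r3 : r₀⁻¹ < ρ⁻¹ := (inv_lt_inv₀ hr h0).2 (by linarith)
      have u2 : ex (-(k * D v)) ^ 2 ∈ S1 := by rw [pow_two]; exact S1.mul (ex_S1 _) (ex_S1 _)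
      have n1 := ph_mul ri mx
      have n2 := ph_mul ri (S1.mul u2 mx)
      have hp : (((ρ⁻¹ : ℝ) : ℂ) * (x * ex v ^ (m + 2 * k)), y * ex v ^ m', v) ∈ DD r₀ δ :=
        ⟨my, hv, Or.inl (by rw [n1.1]; exact r3)⟩
      have hp' : (((ρ⁻¹ : ℝ) : ℂ) * (ex (-(k * D v)) ^ 2 * (x * ex v ^ (m + 2 * k))),
          y * ex v ^ m', v) ∈ DD r₀ δ := ⟨my, hv, Or.inl (by rw [n2.1]; exact r3)⟩
      have a1 := Ξ1 _ hp (by rw [n1.1]; exact r3)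
      have a2 := Ξ1 _ hp' (by rw [n2.1]; exact r3)
      have a3 := Ψ1 _ hp (by rw [n1.1]; exact R1.trans ((inv_lt_inv₀ p₁ h0).2 ρ1).le)
        (by rw [n1.1]; exact (inv_lt_inv₀ h0 p₂).2 ρ2)
      simp only [k1, n1, n2, inv_inv, Function.comp] at a1 a2 a3
      rw [mul_left_comm (ex (-(k * D v)) ^ 2), a1, a2] at a3
      rw [a3, (C1 x y ρ ⟨ρ2, ρ1⟩).1 v hv, ← cj _ (S1.mul (S1.mul hx (S1.zpow hq _)) u2) y hy _ hq ρ
        ⟨h0, by linarith⟩, zpow_add₀ (S1.ne hq)]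
      rw [show x * ex v ^ (2 * k) * ex (-(k * D v)) ^ 2 * ex v ^ m =
        ex (-(k * D v)) ^ 2 * (x * (ex v ^ m * ex v ^ (2 * k))) by ring]
    · have nq : q ∉ ex '' Ioo (-δ) δ := by
        rintro ⟨v, hv, rfl⟩
        exact qa (ex_mem_OA hδ' hv).1
      rw [Ψ2, (C1 x y ρ ⟨ρ2, ρ1⟩).2 q hq nq, ← cj _ (S1.mul hx (S1.zpow hq _)) y hy _ hq ρ
        ⟨h0, by linarith⟩, zpow_add₀ (S1.ne hq)]
      · rw [show x * q ^ (2 * k) * q ^ m = x * (q ^ m * q ^ (2 * k)) by ring]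
      rintro ⟨p, hp, hh⟩
      by_cases kk : r₀⁻¹ < ‖p.1‖
      · have m1 := (emb_k1 hr hδ').mapsTo ⟨hp, kk⟩
        rw [Ξ1 p hp kk] at hh
        have := hcl.injOn m1 mm (hΦ.injOn (hcl.mapsTo m1) (hcl.mapsTo mm) hh)
        exact nq ⟨p.2.2, hp.2.1, congrArg (fun u : ℝ × C3 => u.2.2.2) this⟩
      · rcases Ξ2 p hp (not_lt.1 kk) with h3 | ⟨x', hx', hn', h3⟩
        · rw [hh] at h3
          exact dj _ (hcl.mapsTo mm) h3
        · rw [h3] at hh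
          exact hn' ⟨_, ⟨⟨h0, by linarith⟩, mm.2⟩, (hΦ.injOn hx' (hcl.mapsTo mm) hh).symm⟩
  have mm : ∀ y ∈ F '' (c '' (S1 ×ˢ S1 ×ˢ ball 0 (a₁ ^ κ))), y ∉ F '' K →
      (((c' ∘ C') ∘ b) ∘ G) y ∈ (M' \ j' '' core T) \ K' := by
    rintro _ ⟨_, ⟨u, hu, rfl⟩, rfl⟩ hn
    have u2 : a₂ ^ κ < ‖u.2.2‖ := by
      by_contra hh
      exact hn ⟨_, ⟨u, ⟨hu.1, hu.2.1, by simpa using not_lt.1 hh⟩, rfl⟩, rfl⟩
    simp only [Function.comp]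
    rw [dF.gf _ (o1.1 (mem_image_of_mem _ hu)), d1.gf u hu]
    refine ⟨o1'.1 (mem_image_of_mem _ (dC.mG hu)), fun hh => ?_⟩
    rw [hK', d1'.injOn.mem_image_iff (sb hκ') (dC.mG hu)] at hh
    exact absurd (C'1 u u2) (not_lt.2 (by simpa using hh.2.2))
  have oB : Opn (F '' (c '' (S1 ×ˢ S1 ×ˢ ball 0 (a₁ ^ κ)))) (S4 \ Ψ '' Sg) := by
    have o : Opn (F '' (c '' (S1 ×ˢ S1 ×ˢ ball 0 (a₁ ^ κ)))) S4 :=
      (dF.opn o1).trans (opn_diff clS)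
    refine ⟨fun y hy => ⟨o.1 hy, fun hh => ?_⟩, fun y hy =>
      nhdsWithin_mono _ sdiff_subset (o.2 y hy)⟩
    have yY : y ∈ S4 \ F '' K := ((image_mono SY).trans dΨ.mF.image_subset) hh
    have g2 := mm y hy yY.2
    have := eq ⟨F1.mG hy, g2⟩
    refine (F2.mF g2).2 ?_
    have e3 : (Ψ ∘ F ∘ j ∘ i') ((((c' ∘ C') ∘ b) ∘ G) y) = y := this.symm.trans (F1.fg y hy)
    exact (show (Ψ ∘ F ∘ j ∘ i') ((((c' ∘ C') ∘ b) ∘ G) y) ∈ Ψ '' Sg from e3.symm ▸ hh)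
  obtain ⟨F', G', dF', eF'⟩ := F1.glue2 F2 o1' (opn_diff cK') oB (oY.diff _)
    (fun x hx => by
      by_cases hh : x ∈ K'
      · exact Or.inl (image_mono (sb hκ') hh)
      · exact Or.inr ⟨hx, hh⟩)
    (fun y hy => by
      by_cases hh : y ∈ F '' K
      · exact Or.inl (image_mono (image_mono (sb hκ)) hh)
      · exact Or.inr ⟨⟨hy.1, hh⟩, hy.2⟩)
    eq fun y hy => mm y hy.1 hy.2.1.2
  have ps' : 0 < min s' r := lt_min ps hT.1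
  have sub : ball (0 : ℂ) (min s' r) ×ˢ S2 ⊆ ball 0 s' ×ˢ S2 :=
    prod_mono (ball_subset_ball (min_le_left _ _)) Subset.rfl
  have o3 : Opn (ball (0 : ℂ) (min s' r) ×ˢ S2) (ball 0 s ×ˢ S2) := by
    refine opn_iff.2 ⟨ball 0 (min s' r) ×ˢ univ, isOpen_ball.prod isOpen_univ, ?_⟩
    ext u
    exact ⟨fun hu => ⟨⟨ball_subset_ball ss (sub hu).1, hu.2⟩, hu.1, trivial⟩,
      fun hu => ⟨hu.2.1, hu.1.2⟩⟩
  obtain ⟨oN', e₂, de₂⟩ := ((he.mono o3).down sdiff_subset (ms.mono_left sub)).comp (dΨ.emb oY)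
  refine ⟨min s' r, _, Ψ ∘ e, e₂, F', G', ps', oN', de₂, ?_, fun t ρ o h0 h1 ho => ?_⟩
  · rw [core_comp, image_comp]; exact dF'
  · have n1 : ‖ρ • o‖ < r := by
      rw [norm_smul, Real.norm_of_nonneg h0.le]
      exact (mul_le_of_le_one_right h0.le (S2.norm_le ho).1).trans_lt (h1.trans_le (min_le_right _ _))
    have x1 : T (t, ρ • o) ∈ E \ core T := by
      refine ⟨hT.mem t n1, ?_⟩
      rintro ⟨t', hh⟩
      have := (hT.inj (by simpa using hT.1) n1 hh).1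
      exact smul_ne_zero h0.ne' (S2.norm_le ho).2 this.symm
    have x2 := cp t ρ o h0 ((h1.trans_le (min_le_left _ _)).trans_le ss) ho
    have x3 : e (ρ * ex t, o) ∈ S4 \ F '' K := ms ⟨by
      rw [mem_ball_zero_iff, (ph_mul h0 (ex_S1 t)).1]; exact h1.trans_le (min_le_left _ _), ho⟩
    have x4 : T (t, ρ • o) ∉ En := fun hh => x3.2 (x2 ▸ (FK _ x1).2 hh)
    have := eF' (d2'.mF ⟨x1, x4⟩)
    simp only [Function.comp] at this x2 ⊢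
    rw [this, ij' _ x1.1, x2]

end Pool.Agent.Lib.MP_b2e238_gt
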