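import Pool.Agent.Lib.MP_b2e238_gt.C.Defs
import Pool.Agent.Lib.MP_b2e238_gt.K.Dif

/-! Calculus of open embeddings. -/

open scoped ContDiff Topology
open Set Metric

noncomputable section

namespace Pool.Agent.Lib.MP_b2e238_gt

variable {U V W : Type} [NormedAddCommGroup U] [NormedSpace ℝ U] [NormedAddCommGroup V]
  [NormedSpace ℝ V] [NormedAddCommGroup W] [NormedSpace ℝ W]
  {X X' : Set U} {A A' : Set V} {B : Set W} {φ φ' : U → V} {ψ : V → W}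

theorem Emb.mapsTo (h : Emb X A φ) : MapsTo φ X A := fun _ a => h.1.1 (mem_image_of_mem _ a)
theorem Emb.injOn (h : Emb X A φ) : InjOn φ X := h.2.choose_spec.injOn
theorem Emb.smooth (h : Emb X A φ) : ContDiffOn ℝ ∞ φ X := h.2.choose_spec.cF
theorem Dif.emb {G : V → U} (h : Dif X A' φ G) (o : Opn A' A) : Emb X A φ :=
  ⟨h.image.symm ▸ o, G, h.image.symm ▸ h⟩
theorem Emb.congr (h : Emb X A φ) (e : EqOn φ' φ X) : Emb X A φ' := by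
  obtain ⟨a, χ, d⟩ := h
  exact (d.congr e fun _ _ => rfl).emb a
theorem Emb.mono (h : Emb X A φ) (o : Opn X' X) : Emb X' A φ := by
  obtain ⟨a, χ, d⟩ := h
  exact (d.mono o.1).emb ((d.opn o).trans a)
theorem Emb.comp (h : Emb X A φ) (k : Emb A B ψ) : Emb X B (ψ ∘ φ) := by
  obtain ⟨a, χ, d⟩ := h
  obtain ⟨b, χ', d'⟩ := k.mono a
  exact (d.trans d').emb b
theorem Emb.down (h : Emb X A φ) (k : A' ⊆ A) (m : MapsTo φ X A') : Emb X A' φ :=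
  ⟨⟨m.image_subset, fun a ha => nhdsWithin_mono a k (h.1.2 a ha)⟩, h.2⟩
theorem Emb.up (h : Emb X A' φ) (o : Opn A' A) : Emb X A φ := ⟨h.1.trans o, h.2⟩
theorem Emb.glue {ι : Type} (x : ι → Set U) (o : ∀ i, Opn (x i) X) (c : X ⊆ ⋃ i, x i)
    (h : ∀ i, Emb (x i) A φ) (j : InjOn φ X) : Emb X A φ := by
  have p : φ '' X ⊆ ⋃ i, φ '' x i := (image_mono c).trans image_iUnion.le
  have q : Opn (φ '' X) A := ⟨p.trans (iUnion_subset fun i => (h i).1.1), fun b hb => by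
    obtain ⟨i, k⟩ := mem_iUnion.1 (p hb)
    exact Filter.mem_of_superset ((h i).1.2 b k) (image_mono (o i).1)⟩
  refine ⟨q, Function.invFunOn φ X, Dif.glue x (fun i => φ '' x i) o
    (fun i => ⟨image_mono (o i).1, fun b hb => nhdsWithin_mono b q.1 ((h i).1.2 b hb)⟩) c p fun i => ?_⟩
  obtain ⟨-, χ, d⟩ := h i
  refine d.congr (fun _ _ => rfl) ?_
  rintro _ ⟨y, hy, rfl⟩
  rw [d.gf y hy]
  exact j.leftInvOn_invFunOn ((o i).1 hy)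
theorem Dif.glue2 {X₁ X₂ : Set U} {A₁ A₂ : Set V} {F₁ F₂ : U → V} {G₁ G₂ : V → U}
    (h₁ : Dif X₁ A₁ F₁ G₁) (h₂ : Dif X₂ A₂ F₂ G₂) (o₁ : Opn X₁ X) (o₂ : Opn X₂ X)
    (p₁ : Opn A₁ A) (p₂ : Opn A₂ A) (c : X ⊆ X₁ ∪ X₂) (c' : A ⊆ A₁ ∪ A₂)
    (e : EqOn F₁ F₂ (X₁ ∩ X₂)) (m : ∀ b ∈ A₁ ∩ A₂, G₁ b ∈ X₂) :
    ∃ F G, Dif X A F G ∧ EqOn F F₂ X₂ := by
  classical
  refine ⟨X₂.piecewise F₂ F₁, A₂.piecewise G₂ G₁, Dif.glue (fun i => cond i X₁ X₂)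
    (fun i => cond i A₁ A₂) (Bool.rec o₂ o₁) (Bool.rec p₂ p₁) (union_eq_iUnion.le.trans' c)
    (union_eq_iUnion.le.trans' c') (Bool.rec
      (h₂.congr (piecewise_eqOn _ _ _) (piecewise_eqOn _ _ _))
      (h₁.congr (fun a ha => ?_) fun b hb => ?_)), piecewise_eqOn _ _ _⟩
  · by_cases k : a ∈ X₂
    exacts [(piecewise_eq_of_mem _ _ _ k).trans (e ⟨ha, k⟩).symm, piecewise_eq_of_notMem _ _ _ k]
  · by_cases k : b ∈ A₂
    · rw [piecewise_eq_of_mem _ _ _ k, ← h₂.gf _ (m b ⟨hb, k⟩), ← e ⟨h₁.mG hb, m b ⟨hb, k⟩⟩,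
        h₁.fg b hb]
    · exact piecewise_eq_of_notMem _ _ _ k
theorem opn_diff {K : Set V} (h : IsClosed K) : Opn (A \ K) A :=
  opn_iff.2 ⟨Kᶜ, h.isOpen_compl, rfl⟩
theorem Opn.diff (h : Opn A' A) (K : Set V) : Opn (A' \ K) (A \ K) := by
  obtain ⟨O, o, rfl⟩ := opn_iff.1 h
  exact opn_iff.2 ⟨O, o, inter_right_comm _ _ _⟩
/-- Tube lemma at the sphere. -/
theorem Emb.shrink {e : ℂ × E3 → V} {r : ℝ} (a : 0 < r) (h : Emb (ball 0 r ×ˢ S2) A e)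
    (o : Opn A' A) (m : MapsTo e ({0} ×ˢ S2) A') :
    ∃ r', 0 < r' ∧ r' ≤ r ∧ MapsTo e (ball 0 r' ×ˢ S2) A' := by
  obtain ⟨O, p, rfl⟩ := opn_iff.1 o
  obtain ⟨N, n, k⟩ := _root_.continuousOn_iff'.1 h.smooth.continuousOn O p
  obtain ⟨u, v, hu, -, s, t, w⟩ := generalized_tube_lemma (isCompact_singleton (x := (0 : ℂ)))
    isCompact_S2 n fun x hx => (k.le ⟨(m hx).2, hx.1 ▸ mem_ball_self a, hx.2⟩).1
  obtain ⟨ε, e0, b⟩ := isOpen_iff.1 hu 0 (s rfl)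
  refine ⟨min ε r, lt_min e0 a, min_le_right _ _, fun x hx => ?_⟩
  have : x ∈ ball 0 r ×ˢ S2 := ⟨ball_subset_ball (min_le_right _ _) hx.1, hx.2⟩
  exact ⟨h.mapsTo this,
    (k.ge ⟨w ⟨b (ball_subset_ball (min_le_left _ _) hx.1), t hx.2⟩, this⟩).1⟩

end Pool.Agent.Lib.MP_b2e238_gt
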