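import Pool.Agent.Lib.MP_b2e238_gt.TL.Emb

/-! The thickened disc together with the collar, as one open embedding. -/

open scoped ContDiff Topology
open Set Metric

noncomputable section

namespace Pool.Agent.Lib.MP_b2e238_gt.TL

/-- The angle in turns. -/
def ag (τ : ℂ) : ℝ := τ.arg / (2 * Real.pi)

theorem ag_ex {w : ℝ} (h : |w| < 1 / 2) : ag (ex w) = w ∧ ex w ∈ Complex.slitPlane := by
  have hp := Real.pi_pos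
  obtain ⟨h1, h2⟩ := abs_lt.1 h
  have e : ex w = Complex.exp ((2 * Real.pi * w : ℝ) * .I) := by simp [ex]
  have ha : (ex w).arg = 2 * Real.pi * w := by
    rw [e, Complex.exp_mul_I]
    exact Complex.arg_cos_add_sin_mul_I ⟨by nlinarith, by nlinarith⟩
  refine ⟨by rw [ag, ha]; field_simp, Complex.mem_slitPlane_iff_arg.2 ⟨?_, ?_⟩⟩
  · rw [ha]; nlinarith
  · intro h0; have := norm_ex w; rw [h0] at this; simp at this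

theorem contDiffOn_ag : ContDiffOn ℝ ∞ ag Complex.slitPlane := by
  have h : ContDiffOn ℝ ∞ (fun z : ℂ => (Complex.log z).im / (2 * Real.pi)) Complex.slitPlane := by
    have hl : ContDiffOn ℝ ∞ Complex.log Complex.slitPlane := fun z hz =>
      ((Complex.contDiffAt_log hz).restrict_scalars ℝ).contDiffWithinAt
    exact ContDiffOn.div_const (Complex.imCLM.contDiff.comp_contDiffOn hl) _
  exact h.congr fun z _ => by simp [ag, Complex.log_im]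

/-- An open set that cuts the arc out of the unit circle. -/
def OA (δ : ℝ) : Set ℂ := Complex.slitPlane ∩ ag ⁻¹' Ioo (-δ) δ

theorem isOpen_OA (δ : ℝ) : IsOpen (OA δ) :=
  contDiffOn_ag.continuousOn.isOpen_inter_preimage Complex.isOpen_slitPlane isOpen_Ioo

theorem ex_mem_OA {δ w : ℝ} (hδ : δ < 1 / 4) (h : w ∈ Ioo (-δ) δ) : ex w ∈ OA δ ∧ ag (ex w) = w := by
  have := ag_ex (w := w) (abs_lt.2 ⟨by linarith [h.1], by linarith [h.2]⟩)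
  exact ⟨⟨this.2, by rw [mem_preimage, this.1]; exact h⟩, this.1⟩

theorem ex_ag {τ : ℂ} (h : τ ∈ S1) : ex (ag τ) = τ := ex_arg (by simpa using h)

theorem ex_S1 (t : ℝ) : ex t ∈ S1 := by simp [norm_ex]

theorem ph_S1 {z : ℂ} (h : z ≠ 0) : ph z ∈ S1 := by
  have : ‖z‖ ≠ 0 := norm_ne_zero_iff.2 h
  simp [ph, this]

theorem ph_mul {ρ : ℝ} (h : 0 < ρ) {a : ℂ} (ha : a ∈ S1) :
    ‖(ρ : ℂ) * a‖ = ρ ∧ ph (ρ * a) = a := by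
  have h1 : ‖a‖ = 1 := by simpa using ha
  have h2 : ‖(ρ : ℂ) * a‖ = ρ := by simp [h1, h.le]
  have : (ρ : ℂ) ≠ 0 := by exact_mod_cast h.ne'
  exact ⟨h2, by rw [ph, h2]; field_simp⟩

theorem norm_mul_ph {z : ℂ} (h : z ≠ 0) : (‖z‖ : ℂ) * ph z = z := by
  have : (‖z‖ : ℂ) ≠ 0 := by exact_mod_cast norm_ne_zero_iff.2 h
  rw [ph]; field_simp

/-- The domain: a solid torus without a cylinder, times an interval. -/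
def DD (r δ : ℝ) : Set (ℂ × ℂ × ℝ) :=
  {p | p.2.1 ∈ S1 ∧ p.2.2 ∈ Ioo (-δ) δ ∧ (r⁻¹ < ‖p.1‖ ∨ p.2.1 ∈ OA δ)}

def k1 (p : ℂ × ℂ × ℝ) : ℝ × C3 := (‖p.1‖⁻¹, ph p.1, p.2.1, ex p.2.2)
def k2 (p : ℂ × ℂ × ℝ) : ℂ × ℝ × ℝ := (p.1, ag p.2.1, p.2.2)

theorem emb_k1 {r δ : ℝ} (hr : 0 < r) (hδ : δ < 1 / 4) :
    Emb (DD r δ ∩ {p | r⁻¹ < ‖p.1‖}) (Ioo 0 (2 * r) ×ˢ S1 ×ˢ S1 ×ˢ S1) k1 := by
  have hri : 0 < r⁻¹ := inv_pos.2 hr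
  have hn : ContDiffOn ℝ ∞ (fun p : ℂ × ℂ × ℝ => ‖p.1‖) (DD r δ ∩ {p | r⁻¹ < ‖p.1‖}) :=
    contDiffOn_fst.norm ℝ fun p hp => norm_pos_iff.1 (hri.trans hp.2)
  have hn0 : ∀ p ∈ DD r δ ∩ {p | r⁻¹ < ‖p.1‖}, ‖p.1‖ ≠ 0 := fun p hp => (hri.trans hp.2).ne'
  refine Dif.emb (A' := Ioo 0 r ×ˢ S1 ×ˢ S1 ×ˢ (S1 ∩ OA δ))
    (G := fun u => (((u.1⁻¹ : ℝ) : ℂ) * u.2.1, u.2.2.1, ag u.2.2.2)) ⟨?_, ?_, ?_, ?_, ?_, ?_⟩ ?_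
  · refine (hn.inv hn0).prodMk (ContDiffOn.prodMk ?_ (ContDiffOn.prodMk (by fun_prop)
      (contDiff_ex.comp_contDiffOn (by fun_prop))))
    refine ContDiffOn.congr (contDiffOn_fst.mul
      (Complex.ofRealCLM.contDiff.comp_contDiffOn (hn.inv hn0))) fun p _ => ?_
    simp [ph, div_eq_mul_inv]
  · refine ContDiffOn.prodMk (ContDiffOn.mul (Complex.ofRealCLM.contDiff.comp_contDiffOn
      (contDiffOn_fst.inv fun u hu => hu.1.1.ne')) (by fun_prop))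
      (ContDiffOn.prodMk (by fun_prop) (contDiffOn_ag.comp (by fun_prop) fun u hu => hu.2.2.2.2.1))
  · rintro p ⟨hp, hz⟩
    have h0 : 0 < ‖p.1‖ := hri.trans hz
    exact ⟨⟨inv_pos.2 h0, (inv_lt_comm₀ h0 hr).2 hz⟩, ph_S1 (norm_pos_iff.1 h0), hp.1, ex_S1 _,
      (ex_mem_OA hδ hp.2.1).1⟩
  · rintro u ⟨h1, h2, h3, h4, h5⟩
    have : r⁻¹ < ‖((u.1⁻¹ : ℝ) : ℂ) * u.2.1‖ := by
      rw [(ph_mul (inv_pos.2 h1.1) h2).1]; exact (inv_lt_inv₀ hr h1.1).2 h1.2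
    exact ⟨⟨h3, h5.2, Or.inl this⟩, this⟩
  · rintro p ⟨hp, hz⟩
    have h0 : 0 < ‖p.1‖ := hri.trans hz
    simp only [k1, inv_inv, norm_mul_ph (norm_pos_iff.1 h0), (ex_mem_OA hδ hp.2.1).2]
  · rintro u ⟨h1, h2, h3, h4, h5⟩
    simp only [k1, ph_mul (inv_pos.2 h1.1) h2, inv_inv, ex_ag h4]
  · refine opn_iff.2 ⟨{u | u.1 < r} ∩ (fun u => u.2.2.2) ⁻¹' OA δ,
      (isOpen_lt continuous_fst continuous_const).inter ((isOpen_OA δ).preimage (by fun_prop)), ?_⟩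
    ext u
    constructor
    · rintro ⟨h1, h2, h3, h4, h5⟩
      exact ⟨⟨⟨h1.1, by linarith [h1.2]⟩, h2, h3, h4⟩, h1.2, h5⟩
    · rintro ⟨⟨h1, h2, h3, h4⟩, h5, h6⟩
      exact ⟨⟨h1.1, h5⟩, h2, h3, h4, h6⟩

theorem emb_k2 {r δ : ℝ} (hδ : δ < 1 / 4) (Y : Set ℂ) :
    Emb (DD r δ ∩ {p | p.1 ∈ Y ∧ p.2.1 ∈ OA δ}) (Y ×ˢ Ioo (-δ) δ ×ˢ Ioo (-δ) δ) k2 := by
  refine Dif.emb (G := fun u => (u.1, ex u.2.1, u.2.2)) ⟨?_, ?_, ?_, ?_, ?_, ?_⟩ (Opn.refl _)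
  · exact contDiffOn_fst.prodMk
      ((contDiffOn_ag.comp (by fun_prop) fun p hp => hp.2.2.1).prodMk (by fun_prop))
  · exact contDiffOn_fst.prodMk
      ((contDiff_ex.comp_contDiffOn (by fun_prop)).prodMk (by fun_prop))
  · rintro p ⟨hp, h1, h2⟩
    exact ⟨h1, h2.2, hp.2.1⟩
  · rintro u ⟨h1, h2, h3⟩
    exact ⟨⟨ex_S1 _, h3, Or.inr (ex_mem_OA hδ h2).1⟩, h1, (ex_mem_OA hδ h2).1⟩
  · rintro p ⟨hp, _⟩
    simp only [k2, ex_ag hp.1]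
  · rintro u ⟨_, h2, _⟩
    simp only [k2, (ex_mem_OA hδ h2).2]

variable {U W : Type} [NormedAddCommGroup U] [NormedSpace ℝ U] [NormedAddCommGroup W]
  [NormedSpace ℝ W]

theorem xi {E : Set U} {T : ℝ × E3 → U} {cl : ℝ × C3 → U} (hD : Disc E T cl) {X : Set W}
    {Φ : U → W} {e : ℂ × E3 → W} {s : ℝ} (hs : 0 < s) (hΦ : Emb (E \ core T) X Φ)
    (he : Emb (ball 0 s ×ˢ S2) X e) (dj : ∀ x ∈ E \ core T, Φ x ∉ e '' ({0} ×ˢ S2))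
    (cp : ∀ (t ρ : ℝ) (o : E3), 0 < ρ → ρ < s → o ∈ S2 → Φ (T (t, ρ • o)) = e (ρ * ex t, o)) :
    ∃ (r δ : ℝ) (Ξ : ℂ × ℂ × ℝ → W), 0 < r ∧ 0 < δ ∧ δ < 1 / 4 ∧
      Emb (Ioo 0 (2 * r) ×ˢ S1 ×ˢ S1 ×ˢ S1) (E \ core T) cl ∧ Emb (DD r δ) X Ξ ∧
      (∀ p ∈ DD r δ, r⁻¹ < ‖p.1‖ → Ξ p = Φ (cl (k1 p))) ∧
      ∀ p ∈ DD r δ, ‖p.1‖ ≤ r⁻¹ → Ξ p ∈ e '' ({0} ×ˢ S2) ∨
        ∃ x ∈ E \ core T, x ∉ cl '' (Ioo 0 r ×ˢ S1 ×ˢ S1 ×ˢ S1) ∧ Ξ p = Φ x := by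
  classical
  obtain ⟨r, δ, d, n, Z, N, hr, hδ, hδ', fZ, oN, ZN, hcl, hd, hn, H⟩ := hD
  set Ξ : ℂ × ℂ × ℝ → W := fun p => if r⁻¹ < ‖p.1‖ then Φ (cl (k1 p)) else
    if p.1 ∈ Z then e (n (k2 p)) else Φ (d (k2 p)) with hΞ
  have r2 : (2 * r)⁻¹ < r⁻¹ := (inv_lt_inv₀ (by linarith) hr).2 (by linarith)
  have far : ∀ p ∈ DD r δ, r⁻¹ < ‖p.1‖ → p.1 ∉ Z := fun p hp hz =>
    ((H p.1 0 ⟨by linarith, hδ⟩ 0 ⟨by linarith, hδ⟩).2.2.1 (r2.trans hz)).1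
  have e1 : ∀ p, r⁻¹ < ‖p.1‖ → Ξ p = Φ (cl (k1 p)) := fun p hz => if_pos hz
  have e2 : ∀ p ∈ DD r δ, p.2.1 ∈ OA δ → p.1 ∉ Z → Ξ p = Φ (d (k2 p)) := fun p hp ha hz => by
    by_cases k : r⁻¹ < ‖p.1‖
    · rw [e1 p k, k2, ((H p.1 _ ha.2 _ hp.2.1).2.2.1 (r2.trans k)).2, ex_ag hp.1, k1]
    · simp only [hΞ, if_neg k, if_neg hz]
  have e3 : ∀ p ∈ DD r δ, p.1 ∈ Z → Ξ p = e (n (k2 p)) := fun p hp hz => by
    have k : ¬r⁻¹ < ‖p.1‖ := fun k => far p hp k hz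
    simp only [hΞ, if_neg k, if_pos hz]
  have oa : ∀ p ∈ DD r δ, ¬r⁻¹ < ‖p.1‖ → p.2.1 ∈ OA δ := fun p hp k => hp.2.2.resolve_left k
  have E1 := ((emb_k1 hr hδ').comp hcl).comp hΦ
  have E2 := ((emb_k2 (r := r) hδ' Zᶜ).comp hd).comp hΦ
  have E3' := (emb_k2 (r := r) hδ' N).comp hn
  set P3 : Set (ℂ × ℂ × ℝ) := (DD r δ ∩ {p | p.1 ∈ N ∧ p.2.1 ∈ OA δ}) ∩
    (n ∘ k2) ⁻¹' (ball 0 s ×ˢ univ) with hP3
  have oP : Opn P3 (DD r δ ∩ {p | p.1 ∈ N ∧ p.2.1 ∈ OA δ}) := by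
    obtain ⟨O, hO, hO'⟩ := (_root_.continuousOn_iff'.1 E3'.smooth.continuousOn) (ball 0 s ×ˢ univ)
      (isOpen_ball.prod isOpen_univ)
    exact opn_iff.2 ⟨O, hO, by rw [hP3, inter_comm, hO', inter_comm]⟩
  have E3 : Emb P3 X (e ∘ n ∘ k2) :=
    ((E3'.mono oP).down (prod_mono (subset_univ _) Subset.rfl)
      fun p hp => ⟨hp.2.1, (E3'.mapsTo hp.1).2⟩).comp he
  have e4 : ∀ p ∈ P3, Ξ p = e (n (k2 p)) := fun p hp => by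
    by_cases hz : p.1 ∈ Z
    · exact e3 p hp.1.1 hz
    · have h0 : (n (k2 p)).1 ≠ 0 := fun h =>
        hz (((H p.1 _ hp.1.2.2.2 _ hp.1.1.2.1).1 hp.1.2.1).1 h)
      have h1 : (n (k2 p)).1 = (‖(n (k2 p)).1‖ : ℝ) * ex (ag (ph (n (k2 p)).1)) := by
        rw [ex_ag (ph_S1 h0), norm_mul_ph h0]
      rw [e2 p hp.1.1 hp.1.2.2 hz, k2, (H p.1 _ hp.1.2.2.2 _ hp.1.1.2.1).2.1 ⟨hp.1.2.1, hz⟩ _ _
        (norm_pos_iff.2 h0) h1]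
      refine (cp _ _ _ (norm_pos_iff.2 h0) (by simpa using hp.2.1) (E3'.mapsTo hp.1).2).trans ?_
      rw [← h1]; rfl
  have m3 : ∀ p ∈ DD r δ, p.1 ∈ Z → p ∈ P3 ∧ n (k2 p) ∈ ({0} : Set ℂ) ×ˢ S2 := fun p hp hz => by
    have ha := oa p hp fun k => far p hp k hz
    have h0 : (n (k2 p)).1 = 0 := ((H p.1 _ ha.2 _ hp.2.1).1 (ZN hz)).2 hz
    have hp' : p ∈ DD r δ ∩ {p | p.1 ∈ N ∧ p.2.1 ∈ OA δ} := ⟨hp, ZN hz, ha⟩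
    refine ⟨⟨hp', ?_, trivial⟩, h0, (E3'.mapsTo hp').2⟩
    show (n (k2 p)).1 ∈ ball 0 s
    rw [h0]; exact mem_ball_self hs
  have m1 : ∀ p ∈ DD r δ, r⁻¹ < ‖p.1‖ → cl (k1 p) ∈ E \ core T ∧
      cl (k1 p) ∈ cl '' (Ioo 0 r ×ˢ S1 ×ˢ S1 ×ˢ S1) := fun p hp k => by
    have h := (emb_k1 hr hδ').mapsTo ⟨hp, k⟩
    exact ⟨hcl.mapsTo h, _, ⟨⟨h.1.1,
      (inv_lt_comm₀ ((inv_pos.2 hr).trans k) hr).2 k⟩, h.2⟩, rfl⟩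
  have m2 : ∀ p ∈ DD r δ, ¬r⁻¹ < ‖p.1‖ → p.1 ∉ Z → d (k2 p) ∈ E \ core T ∧
      d (k2 p) ∉ cl '' (Ioo 0 r ×ˢ S1 ×ˢ S1 ×ˢ S1) := fun p hp k hz =>
    ⟨hd.mapsTo ⟨hz, (oa p hp k).2, hp.2.1⟩,
      (H p.1 _ (oa p hp k).2 _ hp.2.1).2.2.2 hz (not_lt.1 k)⟩
  have nz : ∀ p ∈ DD r δ, p.1 ∉ Z → Ξ p ∉ e '' ({0} ×ˢ S2) := fun p hp hz => by
    by_cases k : r⁻¹ < ‖p.1‖
    · rw [e1 p k]; exact dj _ (m1 p hp k).1
    · rw [e2 p hp (oa p hp k) hz]; exact dj _ (m2 p hp k hz).1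
  have mix : ∀ p ∈ DD r δ, ∀ q ∈ DD r δ, r⁻¹ < ‖p.1‖ → ¬r⁻¹ < ‖q.1‖ → q.1 ∉ Z → Ξ p ≠ Ξ q :=
    fun p hp q hq k k' hz h => by
      rw [e1 p k, e2 q hq (oa q hq k') hz] at h
      exact (m2 q hq k' hz).2 (hΦ.injOn (m1 p hp k).1 (m2 q hq k' hz).1 h ▸ (m1 p hp k).2)
  refine ⟨r, δ, Ξ, hr, hδ, hδ', hcl, ?_, fun p _ => e1 p, fun p hp k => ?_⟩
  · refine Emb.glue (ι := Fin 3) ![DD r δ ∩ {p | r⁻¹ < ‖p.1‖},
      DD r δ ∩ {p | p.1 ∈ Zᶜ ∧ p.2.1 ∈ OA δ}, P3] ?_ ?_ ?_ ?_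
    · intro i
      fin_cases i
      · exact opn_iff.2 ⟨_, isOpen_lt continuous_const (by fun_prop), rfl⟩
      · exact opn_iff.2 ⟨_, (fZ.isClosed.isOpen_compl.preimage continuous_fst).inter
          ((isOpen_OA δ).preimage (by fun_prop)), rfl⟩
      · exact oP.trans (opn_iff.2 ⟨_, (oN.preimage continuous_fst).inter
          ((isOpen_OA δ).preimage (by fun_prop)), rfl⟩)
    · intro p hp
      by_cases k : r⁻¹ < ‖p.1‖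
      · exact mem_iUnion.2 ⟨0, hp, k⟩
      · by_cases hz : p.1 ∈ Z
        · exact mem_iUnion.2 ⟨2, (m3 p hp hz).1⟩
        · exact mem_iUnion.2 ⟨1, hp, hz, oa p hp k⟩
    · intro i
      fin_cases i
      · exact E1.congr fun p hp => e1 p hp.2
      · exact E2.congr fun p hp => e2 p hp.1 hp.2.2 hp.2.1
      · exact E3.congr e4
    · intro p hp q hq h
      by_cases hz : p.1 ∈ Z <;> by_cases hz' : q.1 ∈ Z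
      · exact E3.injOn (m3 p hp hz).1 (m3 q hq hz').1
          ((e3 p hp hz).symm.trans (h.trans (e3 q hq hz')))
      · exact absurd ⟨_, (m3 p hp hz).2, (e3 p hp hz).symm.trans h⟩ (nz q hq hz')
      · exact absurd ⟨_, (m3 q hq hz').2, (e3 q hq hz').symm.trans h.symm⟩ (nz p hp hz)
      · by_cases k : r⁻¹ < ‖p.1‖ <;> by_cases k' : r⁻¹ < ‖q.1‖
        · exact E1.injOn ⟨hp, k⟩ ⟨hq, k'⟩ ((e1 p k).symm.trans (h.trans (e1 q k')))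
        · exact absurd h (mix p hp q hq k k' hz')
        · exact absurd h.symm (mix q hq p hp k' k hz)
        · exact E2.injOn ⟨hp, hz, oa p hp k⟩ ⟨hq, hz', oa q hq k'⟩
            ((e2 p hp (oa p hp k) hz).symm.trans (h.trans (e2 q hq (oa q hq k') hz')))
  · by_cases hz : p.1 ∈ Z
    · exact Or.inl ⟨_, (m3 p hp hz).2, (e3 p hp hz).symm⟩
    · exact Or.inr ⟨_, (m2 p hp (not_lt.2 k) hz).1, (m2 p hp (not_lt.2 k) hz).2,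
        e2 p hp (oa p hp (not_lt.2 k)) hz⟩

end Pool.Agent.Lib.MP_b2e238_gt.TL
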