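import Pool.Agent.Lib.MP_b2e238_gt.TL.Rq

/-! The doubled rotation of a solid torus, made the identity near a compact set. -/

set_option autoImplicit false

open scoped ContDiff Topology
open Set Metric Complex

noncomputable section

namespace Pool.Agent.Lib.MP_b2e238_gt.TL

/-- Stereographic coordinate of the unit circle without `1`. -/
def sg (τ : ℂ) : ℝ := τ.im / (1 - τ.re)
/-- Its inverse. -/
def st (s : ℝ) : ℂ := ⟨(s ^ 2 - 1) / (s ^ 2 + 1), 2 * s / (s ^ 2 + 1)⟩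

theorem unit_sq {τ : ℂ} (h : ‖τ‖ = 1) : τ.re ^ 2 + τ.im ^ 2 = 1 := by
  have := normSq_eq_norm_sq τ
  rw [h, normSq_apply] at this; nlinarith

theorem re_lt {τ : ℂ} (h : ‖τ‖ = 1) (k : τ ≠ 1) : τ.re < 1 := by
  have h1 := unit_sq h
  by_contra hh
  have h2 : τ.re = 1 := by nlinarith [sq_nonneg τ.im]
  have h3 : τ.im = 0 := by rw [h2] at h1; nlinarith
  exact k (Complex.ext h2 h3)

theorem norm_st (s : ℝ) : ‖st s‖ = 1 := by
  have h : normSq (st s) = 1 := by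
    have : s ^ 2 + 1 ≠ 0 := by positivity
    simp only [st, normSq_mk]; field_simp; ring
  rw [normSq_eq_norm_sq] at h
  exact (pow_eq_one_iff_of_nonneg (norm_nonneg _) two_ne_zero).1 h

theorem st_ne (s : ℝ) : st s ≠ 1 := by
  intro h
  have h1 := congrArg re h
  have : s ^ 2 + 1 ≠ 0 := by positivity
  simp only [st, one_re] at h1
  field_simp at h1
  linarith

theorem sg_st (s : ℝ) : sg (st s) = s := by
  have : s ^ 2 + 1 ≠ 0 := by positivity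
  have e : 1 - (s ^ 2 - 1) / (s ^ 2 + 1) = 2 / (s ^ 2 + 1) := by field_simp; ring
  simp only [sg, st, e]; field_simp

theorem st_sg {τ : ℂ} (h : ‖τ‖ = 1) (k : τ ≠ 1) : st (sg τ) = τ := by
  have h1 := unit_sq h
  have h2 : 1 - τ.re ≠ 0 := (sub_pos.2 (re_lt h k)).ne'
  have e : sg τ ^ 2 + 1 = 2 / (1 - τ.re) := by
    simp only [sg]; field_simp; nlinarith
  have e' : sg τ ^ 2 - 1 = 2 * τ.re / (1 - τ.re) := by
    simp only [sg]; field_simp; nlinarith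
  refine Complex.ext ?_ ?_
  · simp only [st, e, e']; field_simp
  · simp only [st, e]; simp only [sg]; field_simp

theorem contDiff_st : ContDiff ℝ ∞ st := by
  have hne : ∀ s : ℝ, s ^ 2 + 1 ≠ 0 := fun s => by positivity
  have h1 : ContDiff ℝ ∞ fun s : ℝ => (s ^ 2 - 1) / (s ^ 2 + 1) :=
    ContDiff.div (by fun_prop) (by fun_prop) hne
  have h2 : ContDiff ℝ ∞ fun s : ℝ => 2 * s / (s ^ 2 + 1) :=
    ContDiff.div (by fun_prop) (by fun_prop) hne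
  have : st = fun s => (((s ^ 2 - 1) / (s ^ 2 + 1) : ℝ) : ℂ) + ((2 * s / (s ^ 2 + 1) : ℝ) : ℂ) * I := by
    funext s; exact (re_add_im (st s)).symm
  rw [this]
  exact (ofRealCLM.contDiff.comp h1).add ((ofRealCLM.contDiff.comp h2).mul contDiff_const)

theorem contDiffOn_sg : ContDiffOn ℝ ∞ sg {τ | τ.re < 1} :=
  ContDiffOn.div imCLM.contDiff.contDiffOn (contDiffOn_const.sub reCLM.contDiff.contDiffOn)
    fun _ h => (sub_pos.2 h).ne'

theorem sg_sq {τ : ℂ} (h : ‖τ‖ = 1) (k : τ ≠ 1) : sg τ ^ 2 * (1 - τ.re) = 1 + τ.re := by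
  have h1 := unit_sq h
  have h2 : 1 - τ.re ≠ 0 := (sub_pos.2 (re_lt h k)).ne'
  simp only [sg]; field_simp; nlinarith

/-- The point of `ℂ × ℝ` under a point of the solid torus. -/
def yy (p : ℂ × ℂ) : ℂ × ℝ := (p.1, sg p.2)
/-- The cut-off. -/
def cc (ρ : ℝ) (y : ℂ × ℝ) : ℝ := Real.smoothTransition (nq y - ρ)
/-- The twist in the chart; `ε = -1` with the conjugate gives the inverse. -/
def tw (ρ ε : ℝ) (w : ℂ) (y : ℂ × ℝ) : ℂ × ℝ := rq (qa (cc ρ y) w) (ε * qb (cc ρ y) w) y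

open Classical in
/-- The twist on the solid torus. -/
def gt (ρ ε : ℝ) (u : ℂ × ℂ × ℂ) : ℂ × ℂ :=
  if u.2.2 = 1 then (u.1 ^ 2 * u.2.1, 1)
  else ((tw ρ ε u.1 (yy u.2)).1, st (tw ρ ε u.1 (yy u.2)).2)

theorem q_ne' {ε : ℝ} (hε : ε ^ 2 = 1) (c : ℝ) {w : ℂ} (hw : ‖w‖ = 1) :
    normSq (qa c w) + (ε * qb c w) ^ 2 ≠ 0 := by
  rw [mul_pow, hε, one_mul]; exact q_ne c hw

theorem tw_nq {ρ ε : ℝ} (hε : ε ^ 2 = 1) {w : ℂ} (hw : ‖w‖ = 1) (y : ℂ × ℝ) :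
    nq (tw ρ ε w y) = nq y := rq_nq (q_ne' hε _ hw) y

theorem tw_inv {ρ ε : ℝ} (hε : ε ^ 2 = 1) {w : ℂ} (hw : ‖w‖ = 1) (y : ℂ × ℝ) :
    tw ρ (-ε) (star w) (tw ρ ε w y) = y := by
  have hc : cc ρ (tw ρ ε w y) = cc ρ y := by rw [cc, tw_nq hε hw, cc]
  have h1 : qa (cc ρ y) (star w) = star (qa (cc ρ y) w) := by simp [qa]
  have h2 : -ε * qb (cc ρ y) (star w) = -(ε * qb (cc ρ y) w) := by simp [qb]
  rw [tw, hc, h1, h2]
  exact rq_inv (q_ne' hε _ hw) y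

theorem tw_far {ρ ε : ℝ} {w : ℂ} (hw : ‖w‖ = 1) {y : ℂ × ℝ} (h : ρ + 1 ≤ nq y) :
    tw ρ ε w y = (w ^ 2 * y.1, y.2) := by
  have : cc ρ y = 1 := Real.smoothTransition.one_of_one_le (by linarith)
  rw [tw, this, qa_one, qb_one, mul_zero, rq_unit hw]

theorem tw_near {ρ ε : ℝ} (w : ℂ) {y : ℂ × ℝ} (h : nq y ≤ ρ) : tw ρ ε w y = y := by
  have : cc ρ y = 0 := Real.smoothTransition.zero_of_nonpos (by linarith)
  rw [tw, this, qa_zero, qb_zero, mul_zero, rq_one]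

theorem tw_one (ρ ε : ℝ) (y : ℂ × ℝ) : tw ρ ε 1 y = y := by
  rw [tw, qa_w_one, qb_w_one, mul_zero, rq_one]

theorem gt_norm (ρ ε : ℝ) (u : ℂ × ℂ × ℂ) : ‖(gt ρ ε u).2‖ = 1 := by
  unfold gt; split_ifs
  · simp
  · exact norm_st _

theorem gt_far {ρ ε : ℝ} {w : ℂ} (hw : ‖w‖ = 1) {p : ℂ × ℂ} (hp : ‖p.2‖ = 1)
    (h : p.2 ≠ 1 → ρ + 1 ≤ nq (yy p)) : gt ρ ε (w, p) = (w ^ 2 * p.1, p.2) := by
  unfold gt; split_ifs with k
  · simp only at k ⊢; rw [k]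
  · simp only at k ⊢
    rw [tw_far hw (h k)]
    simp only [yy, st_sg hp k]

theorem gt_fix {ρ ε : ℝ} {w : ℂ} {p : ℂ × ℂ} (hp : ‖p.2‖ = 1) (k : p.2 ≠ 1)
    (h : tw ρ ε w (yy p) = yy p) : gt ρ ε (w, p) = p := by
  unfold gt
  rw [if_neg k]
  simp only [h]
  simp only [yy, st_sg hp k]

theorem gt_one (ρ ε : ℝ) {p : ℂ × ℂ} (hp : ‖p.2‖ = 1) : gt ρ ε (1, p) = p := by
  by_cases k : p.2 = 1
  · rw [gt_far (by simp) hp fun h => absurd k h]; simp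
  · exact gt_fix hp k (tw_one _ _ _)

theorem gt_inv {ρ ε : ℝ} (hε : ε ^ 2 = 1) {w : ℂ} (hw : ‖w‖ = 1) {p : ℂ × ℂ} (hp : ‖p.2‖ = 1) :
    gt ρ (-ε) (star w, gt ρ ε (w, p)) = p := by
  have hs : ‖star w‖ = 1 := by simpa using hw
  by_cases k : p.2 = 1
  · rw [gt_far hw hp fun h => absurd k h, gt_far (p := (w ^ 2 * p.1, p.2)) hs hp fun h => absurd k h]
    have : star w * w = 1 := by
      rw [star_def, mul_comm, mul_conj, normSq_eq_norm_sq, hw]; simp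
    refine Prod.ext ?_ rfl
    simp only
    rw [← mul_assoc, ← mul_pow, this]; simp
  · have e : gt ρ ε (w, p) = ((tw ρ ε w (yy p)).1, st (tw ρ ε w (yy p)).2) := if_neg k
    have e2 : yy (gt ρ ε (w, p)) = tw ρ ε w (yy p) := by rw [e]; simp only [yy, sg_st]
    have k2 : (gt ρ ε (w, p)).2 ≠ 1 := by rw [e]; exact st_ne _
    rw [gt, if_neg k2]
    simp only [e2, tw_inv hε hw]
    simp only [yy, st_sg hp k]

theorem contDiffOn_gt {ρ ε : ℝ} (hε : ε ^ 2 = 1) :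
    ContDiffOn ℝ ∞ (gt ρ ε) (sphere 0 1 ×ˢ univ ×ˢ sphere 0 1) := by
  set A : Set (ℂ × ℂ × ℂ) := sphere 0 1 ×ˢ univ ×ˢ sphere 0 1 with hA
  have mA : ∀ u ∈ A, ‖u.1‖ = 1 ∧ ‖u.2.2‖ = 1 := fun u hu => by simpa [hA] using hu
  apply contDiffOn_of_locally_contDiffOn
  intro u hu
  have cre : Continuous fun v : ℂ × ℂ × ℂ => v.2.2.re := by fun_prop
  by_cases k : u.2.2 = 1
  · refine ⟨{v | (ρ + 1) * (1 - v.2.2.re) < 1 + v.2.2.re}, isOpen_lt (by fun_prop) (by fun_prop),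
      by simp [k], ?_⟩
    refine ContDiffOn.congr (f := fun v : ℂ × ℂ × ℂ => (v.1 ^ 2 * v.2.1, v.2.2)) (by fun_prop) ?_
    rintro v ⟨hv, hv'⟩
    refine gt_far (mA v hv).1 (mA v hv).2 fun h => ?_
    have h1 := sg_sq (mA v hv).2 h
    have h2 := sub_pos.2 (re_lt (mA v hv).2 h)
    have h3 : ρ + 1 < sg v.2.2 ^ 2 := by
      rw [mem_ofPred_eq, ← h1] at hv'
      exact lt_of_mul_lt_mul_right hv' h2.le
    have := normSq_nonneg v.2.1
    simp only [nq, yy]; linarith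
  · refine ⟨{v | v.2.2.re < 1}, isOpen_lt cre continuous_const, re_lt (mA u hu).2 k, ?_⟩
    have hy : ContDiffOn ℝ ∞ (fun v : ℂ × ℂ × ℂ => yy v.2) (A ∩ {v | v.2.2.re < 1}) :=
      ContDiffOn.prodMk (by fun_prop) (contDiffOn_sg.comp (by fun_prop) fun v hv => hv.2)
    have hc : ContDiffOn ℝ ∞ (fun v : ℂ × ℂ × ℂ => cc ρ (yy v.2)) (A ∩ {v | v.2.2.re < 1}) :=
      Real.smoothTransition.contDiff.comp_contDiffOn
        ((contDiff_nq.comp_contDiffOn hy).sub contDiffOn_const)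
    have ht : ContDiffOn ℝ ∞ (fun v : ℂ × ℂ × ℂ => tw ρ ε v.1 (yy v.2))
        (A ∩ {v | v.2.2.re < 1}) :=
      contDiffOn_rq (contDiffOn_qa hc contDiffOn_fst)
        (contDiffOn_const.mul (contDiffOn_qb hc contDiffOn_fst)) hy
        fun v hv => q_ne' hε _ (mA v hv.1).1
    refine ContDiffOn.congr (ht.fst.prodMk (contDiff_st.comp_contDiffOn ht.snd)) ?_
    rintro v ⟨_, hv'⟩
    have : v.2.2 ≠ 1 := fun h => by simp [h] at hv'
    exact if_neg this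

/-- The model twist. -/
theorem model {K : Set (ℂ × ℂ)} (hK : IsCompact K) (k1 : ∀ p ∈ K, ‖p.2‖ = 1 ∧ p.2 ≠ 1) :
    ∃ (R : ℝ) (B : Set (ℂ × ℂ)) (G G' : ℂ × ℂ × ℂ → ℂ × ℂ), 0 < R ∧ IsOpen B ∧ K ⊆ B ∧
      ContDiffOn ℝ ∞ G (sphere 0 1 ×ˢ univ ×ˢ sphere 0 1) ∧
      ContDiffOn ℝ ∞ G' (sphere 0 1 ×ˢ univ ×ˢ sphere 0 1) ∧
      ∀ (w : ℂ) (p : ℂ × ℂ), ‖w‖ = 1 → ‖p.2‖ = 1 → ‖(G (w, p)).2‖ = 1 ∧ ‖(G' (w, p)).2‖ = 1 ∧
        G' (w, G (w, p)) = p ∧ G (w, G' (w, p)) = p ∧ G (1, p) = p ∧ (p ∈ B → G (w, p) = p) ∧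
        (R ≤ ‖p.1‖ → G (w, p) = (w ^ 2 * p.1, p.2)) := by
  have hO : IsOpen {p : ℂ × ℂ | p.2.re < 1} := isOpen_lt (by fun_prop) continuous_const
  have hc : ContinuousOn (fun p : ℂ × ℂ => nq (yy p)) {p | p.2.re < 1} :=
    contDiff_nq.continuous.comp_continuousOn (continuousOn_fst.prodMk
      (contDiffOn_sg.continuousOn.comp continuousOn_snd fun p hp => hp))
  have hKO : K ⊆ {p : ℂ × ℂ | p.2.re < 1} := fun p hp => re_lt (k1 p hp).1 (k1 p hp).2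
  obtain ⟨c, hc'⟩ := hK.exists_bound_of_continuousOn (hc.mono hKO)
  refine ⟨|c| + 2, {p | p.2.re < 1} ∩ (fun p => nq (yy p)) ⁻¹' Iio (|c| + 1), gt (|c| + 1) 1,
    fun u => gt (|c| + 1) (-1) (star u.1, u.2), by positivity,
    hc.isOpen_inter_preimage hO isOpen_Iio, fun p hp => ⟨hKO hp, ?_⟩, contDiffOn_gt (by norm_num),
    ?_, fun w p hw hp => ⟨gt_norm _ _ _, gt_norm _ _ _, gt_inv (by norm_num) hw hp, ?_,
      gt_one _ _ hp, fun h => ?_, fun h => gt_far hw hp fun _ => ?_⟩⟩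
  · have := (le_abs_self _).trans ((hc' p hp).trans (le_abs_self c))
    simp only [mem_preimage, mem_Iio]; linarith
  · refine (contDiffOn_gt (by norm_num)).comp
      ((conjCLE.contDiff.comp contDiff_fst).prodMk contDiff_snd).contDiffOn ?_
    intro u hu
    simpa using hu
  · have := gt_inv (ρ := |c| + 1) (ε := -1) (by norm_num) (w := star w) (by simpa using hw) hp
    simpa using this
  · exact gt_fix hp (fun k => by simp [k] at h) (tw_near _ (le_of_lt h.2))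
  · have h1 : normSq p.1 = ‖p.1‖ ^ 2 := normSq_eq_norm_sq _
    have h2 := sq_nonneg (sg p.2)
    have h3 := abs_nonneg c
    simp only [nq, yy]; nlinarith

end Pool.Agent.Lib.MP_b2e238_gt.TL
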