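import Pool.Agent.Lib.MP_b2e238_gt.TL.Xi
import Pool.Agent.Lib.MP_b2e238_gt.TL.Model

/-! The twist carried into the surgered manifold. -/

open scoped ContDiff Topology
open Set Metric

noncomputable section

namespace Pool.Agent.Lib.MP_b2e238_gt.TL

variable {W : Type} [NormedAddCommGroup W] [NormedSpace ℝ W]

/-- The model twist on the domain `DD`, for a smooth family of angles `θ v`. -/
theorem psi_model {r δ : ℝ} (hδ : 0 < δ) :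
    ∃ R : ℝ, 0 < R ∧ ∀ θ : ℝ → ℝ, ContDiff ℝ ∞ θ → (∀ v, δ / 2 ≤ |v| → ex (θ v) = 1) →
      ∀ R', R ≤ R' → ∃ (ψ ψ' : ℂ × ℂ × ℝ → ℂ × ℂ × ℝ) (K : Set (ℂ × ℂ × ℝ)),
        Dif (DD r δ ∩ {p | ‖p.1‖ < R'}) (DD r δ ∩ {p | ‖p.1‖ < R'}) ψ ψ' ∧ IsCompact K ∧
        K ⊆ DD r δ ∩ {p | ‖p.1‖ ≤ R'} ∧ (∀ p ∈ DD r δ ∩ {p | ‖p.1‖ < R'}, p ∉ K → ψ p = p) ∧
        ∀ p ∈ DD r δ, R ≤ ‖p.1‖ → ψ p = (ex (θ p.2.2) ^ 2 * p.1, p.2) := by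
  have cS : IsCompact S1 := isCompact_sphere _ _
  have hK : IsCompact (closedBall (0 : ℂ) r⁻¹ ×ˢ (S1 \ OA δ)) :=
    (isCompact_closedBall _ _).prod (cS.diff (isOpen_OA δ))
  have one : (1 : ℂ) ∈ OA δ := ⟨Complex.one_mem_slitPlane, by simp [ag, hδ]⟩
  obtain ⟨R, B, G, G', hR, oB, KB, cG, cG', H⟩ := model hK fun p hp =>
    ⟨by simpa using hp.2.1, fun h => hp.2.2 (h ▸ one)⟩
  refine ⟨R, hR, fun θ cθ θ1 R' hR' => ?_⟩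
  have nS : ∀ {τ : ℂ}, τ ∈ S1 → ‖τ‖ = 1 := fun h => by simpa using h
  have sm : ∀ {g : ℂ × ℂ × ℂ → ℂ × ℂ}, ContDiffOn ℝ ∞ g (sphere 0 1 ×ˢ univ ×ˢ sphere 0 1) →
      ContDiffOn ℝ ∞ (fun p : ℂ × ℂ × ℝ => ((g (ex (θ p.2.2), p.1, p.2.1)).1,
        (g (ex (θ p.2.2), p.1, p.2.1)).2, p.2.2)) (DD r δ ∩ {p | ‖p.1‖ < R'}) := fun {g} cg => by
    have h : ContDiffOn ℝ ∞ (fun p : ℂ × ℂ × ℝ => g (ex (θ p.2.2), p.1, p.2.1))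
        (DD r δ ∩ {p | ‖p.1‖ < R'}) :=
      cg.comp (ContDiff.contDiffOn ((contDiff_ex.comp (cθ.comp (by fun_prop))).prodMk
        (by fun_prop))) fun p hp => ⟨ex_S1 _, trivial, hp.1.1⟩
    exact h.fst.prodMk (h.snd.prodMk (by fun_prop))
  -- a bijection `g` with left inverse `g'` preserves the domain
  have key : ∀ (w : ℂ) (p q : ℂ × ℂ), ‖w‖ = 1 → ‖p.2‖ = 1 → ‖q.2‖ = 1 → G (w, p) = q →
      ((r⁻¹ < ‖p.1‖ ∨ p.2 ∈ OA δ) ↔ (r⁻¹ < ‖q.1‖ ∨ q.2 ∈ OA δ)) ∧ (‖p.1‖ < R' ↔ ‖q.1‖ < R') := by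
    intro w p q hw hp hq e
    have inK : ∀ x : ℂ × ℂ, ‖x.2‖ = 1 → ¬(r⁻¹ < ‖x.1‖ ∨ x.2 ∈ OA δ) → G (w, x) = x :=
      fun x hx h => (H w x hw hx).2.2.2.2.2.1 (KB ⟨by simpa using not_lt.1 fun k => h (Or.inl k),
        by simpa using hx, fun k => h (Or.inr k)⟩)
    have inj : ∀ x : ℂ × ℂ, ‖x.2‖ = 1 → G (w, x) = q → x = p := fun x hx h => by
      rw [← (H w x hw hx).2.2.1, h, ← e, (H w p hw hp).2.2.1]
    have hw2 : ‖w ^ 2‖ = 1 := by rw [norm_pow, hw]; norm_num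
    have w0 : w ^ 2 ≠ 0 := norm_ne_zero_iff.1 (by rw [hw2]; norm_num)
    refine ⟨⟨fun h => ?_, fun h => ?_⟩, ⟨fun h => ?_, fun h => ?_⟩⟩
    · by_contra k
      exact k (inj q hq (inK q hq k) ▸ h)
    · by_contra k
      exact k (((inK p hp k).symm.trans e) ▸ h)
    · by_contra k
      have n1 : ‖(w ^ 2)⁻¹ * q.1‖ = ‖q.1‖ := by rw [norm_mul, norm_inv, hw2]; simp
      have := inj ((w ^ 2)⁻¹ * q.1, q.2) hq (by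
        rw [(H w ((w ^ 2)⁻¹ * q.1, q.2) hw hq).2.2.2.2.2.2 (by rw [n1]; linarith [not_lt.1 k])]
        simp only [← mul_assoc, mul_inv_cancel₀ w0, one_mul])
      rw [← this] at h
      exact k (n1 ▸ h)
    · by_contra k
      rw [← e, (H w p hw hp).2.2.2.2.2.2 (by linarith [not_lt.1 k])] at h
      simp only [norm_mul, hw2, one_mul] at h
      exact k h
  refine ⟨_, _, (fun u : (ℂ × ℂ) × ℝ => (u.1.1, u.1.2, u.2)) ''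
    (((closedBall 0 R' ×ˢ S1) \ B) ×ˢ Icc (-(δ / 2)) (δ / 2)),
    ⟨sm cG, sm cG', fun p hp => ?_, fun p hp => ?_, fun p hp => ?_, fun p hp => ?_⟩,
    ((((isCompact_closedBall _ _).prod cS).diff oB).prod isCompact_Icc).image (by fun_prop),
    ?_, fun p hp k => ?_, fun p hp k => ?_⟩
  · have h := H (ex (θ p.2.2)) (p.1, p.2.1) (norm_ex _) (nS hp.1.1)
    have k := key _ (p.1, p.2.1) _ (norm_ex (θ p.2.2)) (nS hp.1.1) h.1 rfl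
    exact ⟨⟨by simpa using h.1, hp.1.2.1, k.1.1 hp.1.2.2⟩, k.2.1 hp.2⟩
  · have h := H (ex (θ p.2.2)) (p.1, p.2.1) (norm_ex _) (nS hp.1.1)
    have k := key _ _ (p.1, p.2.1) (norm_ex (θ p.2.2)) h.2.1 (nS hp.1.1) h.2.2.2.1
    exact ⟨⟨by simpa using h.2.1, hp.1.2.1, k.1.2 hp.1.2.2⟩, k.2.2 hp.2⟩
  · have h := H (ex (θ p.2.2)) (p.1, p.2.1) (norm_ex _) (nS hp.1.1)
    simp only [Prod.mk.eta, h.2.2.1]
  · have h := H (ex (θ p.2.2)) (p.1, p.2.1) (norm_ex _) (nS hp.1.1)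
    simp only [Prod.mk.eta, h.2.2.2.1]
  · rintro _ ⟨u, ⟨⟨h1, h2⟩, h3⟩, rfl⟩
    refine ⟨⟨h1.2, ⟨by linarith [h3.1], by linarith [h3.2]⟩, ?_⟩, by simpa using h1.1⟩
    by_contra k
    exact h2 (KB ⟨by simpa using not_lt.1 fun k' => k (Or.inl k'), h1.2, fun k' => k (Or.inr k')⟩)
  · have h := H (ex (θ p.2.2)) (p.1, p.2.1) (norm_ex _) (nS hp.1.1)
    by_cases b : (p.1, p.2.1) ∈ B
    · simp only [h.2.2.2.2.2.1 b]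
    · have : δ / 2 ≤ |p.2.2| := by
        by_contra c
        have c' := abs_lt.1 (not_le.1 c)
        exact k ⟨((p.1, p.2.1), p.2.2), ⟨⟨⟨by simpa using le_of_lt hp.2, hp.1.1⟩, b⟩,
          c'.1.le, c'.2.le⟩, rfl⟩
      simp only [θ1 _ this, h.2.2.2.2.1]
  · simp only [(H (ex (θ p.2.2)) (p.1, p.2.1) (norm_ex _) (nS hp.1)).2.2.2.2.2.2 k]

/-- The twist as a diffeomorphism of an open part `Y` of `X`. -/
theorem psi {r δ : ℝ} (hδ : 0 < δ) {X : Set W} {Ξ : ℂ × ℂ × ℝ → W} (hΞ : Emb (DD r δ) X Ξ) :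
    ∃ R : ℝ, 0 < R ∧ ∀ θ : ℝ → ℝ, ContDiff ℝ ∞ θ → (∀ v, δ / 2 ≤ |v| → ex (θ v) = 1) →
      ∀ R', R ≤ R' → ∀ Y ⊆ X, (∀ p ∈ DD r δ, ‖p.1‖ ≤ R' → (Ξ p ∈ Y ↔ ‖p.1‖ < R')) →
        ∃ Ψ Ψ' : W → W, Dif Y Y Ψ Ψ' ∧
          (∀ p ∈ DD r δ, R ≤ ‖p.1‖ → ‖p.1‖ < R' → Ψ (Ξ p) = Ξ (ex (θ p.2.2) ^ 2 * p.1, p.2)) ∧
          ∀ x, x ∉ Ξ '' DD r δ → Ψ x = x := by
  classical
  obtain ⟨R, hR, H⟩ := psi_model (r := r) hδ
  refine ⟨R, hR, fun θ cθ θ1 R' hR' Y YX hY => ?_⟩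
  obtain ⟨ψ, ψ', K, dψ, cK, KD, ψ1, ψ2⟩ := H θ cθ θ1 R' hR'
  set D2 := DD r δ ∩ {p | ‖p.1‖ < R'} with hD2
  have E2 : Emb D2 Y Ξ :=
    (hΞ.mono (opn_iff.2 ⟨_, isOpen_lt (by fun_prop) continuous_const, rfl⟩)).down YX
      fun p hp => (hY p hp.1 (le_of_lt hp.2)).2 hp.2
  obtain ⟨o, ξ, dξ⟩ := E2
  have cl : IsClosed (Ξ '' K) :=
    (cK.image_of_continuousOn (hΞ.smooth.continuousOn.mono fun p hp => (KD hp).1)).isClosed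
  have d := (dξ.symm.trans dψ).trans dξ
  have ex' := d.extend o (K := Ξ '' K ∩ Y) ?_ ?_ ?_
  · refine ⟨_, _, ex', fun p hp k k' => ?_, fun x hx => ?_⟩
    · rw [piecewise_eq_of_mem _ _ _ (mem_image_of_mem Ξ (show p ∈ D2 from ⟨hp, k'⟩))]
      simp only [Function.comp, dξ.gf p ⟨hp, k'⟩, ψ2 p hp k]
    · exact piecewise_eq_of_notMem _ _ _ fun h => hx (image_mono inter_subset_left h)
  · rintro _ ⟨⟨p, hp, rfl⟩, hy⟩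
    exact ⟨p, ⟨(KD hp).1, (hY p (KD hp).1 (KD hp).2).1 hy⟩, rfl⟩
  · have : Y \ (Ξ '' K ∩ Y) = Y \ Ξ '' K := by
      ext x; simp only [mem_sdiff, mem_inter_iff]; tauto
    rw [this]; exact opn_diff cl
  · rintro _ ⟨⟨p, hp, rfl⟩, hn⟩
    have : p ∉ K := fun h => hn ⟨mem_image_of_mem _ h, o.1 (mem_image_of_mem _ hp)⟩
    simp only [Function.comp, dξ.gf p hp, ψ1 p hp this]

end Pool.Agent.Lib.MP_b2e238_gt.TL
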