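import Mathlib

/-! Rotations of `ℂ × ℝ` given by quaternions, and a based contraction of a doubled loop. -/

set_option autoImplicit false

open scoped ContDiff Topology
open Set Metric Complex

noncomputable section

namespace Pool.Agent.Lib.MP_b2e238_gt.TL

/-- Squared Euclidean norm on `ℂ × ℝ`. -/
def nq (y : ℂ × ℝ) : ℝ := normSq y.1 + y.2 ^ 2

/-- The rotation of `ℂ × ℝ` given by the quaternion `a + b j`. -/
def rq (a : ℂ) (b : ℝ) (y : ℂ × ℝ) : ℂ × ℝ :=
  ((((normSq a + b ^ 2)⁻¹ : ℝ) : ℂ) * (a ^ 2 * y.1 - (b : ℂ) ^ 2 * star y.1 - 2 * a * b * y.2),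
    (normSq a + b ^ 2)⁻¹ * ((normSq a - b ^ 2) * y.2 + 2 * b * (a * y.1).re))

theorem rq_nq {a : ℂ} {b : ℝ} (h : normSq a + b ^ 2 ≠ 0) (y : ℂ × ℝ) : nq (rq a b y) = nq y := by
  obtain ⟨⟨p, q⟩, s⟩ := y
  obtain ⟨u, v⟩ := a
  simp only [normSq_mk] at h
  simp only [nq, rq, normSq_apply, pow_two, mul_re, mul_im, sub_re, sub_im, ofReal_re, ofReal_im,
    star_def, conj_re, conj_im, re_ofNat, im_ofNat] at h ⊢
  have hi := inv_mul_cancel₀ h
  generalize (u * u + v * v + b * b)⁻¹ = i at hi ⊢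
  linear_combination (p * p + q * q + s * s) * (i * (u * u + v * v + b * b) + 1) * hi

theorem rq_inv {a : ℂ} {b : ℝ} (h : normSq a + b ^ 2 ≠ 0) (y : ℂ × ℝ) :
    rq (star a) (-b) (rq a b y) = y := by
  obtain ⟨⟨p, q⟩, s⟩ := y
  obtain ⟨u, v⟩ := a
  simp only [normSq_mk] at h
  have e : u * u + -v * -v + -b * -b = u * u + v * v + b * b := by ring
  rw [pow_two] at h
  have hi := inv_mul_cancel₀ h
  refine Prod.ext (Complex.ext ?_ ?_) ?_ <;>
  simp only [rq, normSq_apply, pow_two, mul_re, mul_im, sub_re, sub_im, ofReal_re, ofReal_im,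
    star_def, conj_re, conj_im, re_ofNat, im_ofNat, e] <;>
  generalize (u * u + v * v + b * b)⁻¹ = i at hi ⊢
  · linear_combination p * (i * (u * u + v * v + b * b) + 1) * hi
  · linear_combination q * (i * (u * u + v * v + b * b) + 1) * hi
  · linear_combination s * (i * (u * u + v * v + b * b) + 1) * hi

theorem rq_inv' {a : ℂ} {b : ℝ} (h : normSq a + b ^ 2 ≠ 0) (y : ℂ × ℝ) :
    rq a b (rq (star a) (-b) y) = y := by
  have h' : normSq (star a) + (-b) ^ 2 ≠ 0 := by simpa using h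
  simpa using rq_inv h' y

theorem rq_unit {a : ℂ} (h : ‖a‖ = 1) (y : ℂ × ℝ) : rq a 0 y = (a ^ 2 * y.1, y.2) := by
  have : normSq a = 1 := by rw [normSq_eq_norm_sq, h]; norm_num
  simp [rq, this]

theorem rq_one (y : ℂ × ℝ) : rq 1 0 y = y := by
  rw [rq_unit (by simp)]; simp

/-- First coordinate of the contraction. -/
def qa (c : ℝ) (w : ℂ) : ℂ := (1 - c : ℝ) + c * w
/-- Second coordinate of the contraction. -/
def qb (c : ℝ) (w : ℂ) : ℝ := c * (1 - c) * (1 - w.re)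

theorem q_ne (c : ℝ) {w : ℂ} (hw : ‖w‖ = 1) : normSq (qa c w) + qb c w ^ 2 ≠ 0 := by
  intro h
  have h1 := normSq_nonneg (qa c w)
  have h2 := sq_nonneg (qb c w)
  have ha : qa c w = 0 := normSq_eq_zero.1 (by linarith)
  have hb : qb c w = 0 := pow_eq_zero_iff two_ne_zero |>.1 (by linarith)
  have hn : w.re ^ 2 + w.im ^ 2 = 1 := by
    have := normSq_eq_norm_sq w
    rw [hw, normSq_apply] at this; nlinarith
  have hre := congrArg re ha
  have him := congrArg im ha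
  simp [qa] at hre him
  simp only [qb, mul_eq_zero] at hb
  rcases hb with (hb | hb) | hb
  · rw [hb] at hre; norm_num at hre
  · have hc : c = 1 := by linarith
    rw [hc] at hre him
    simp at hre him
    rw [hre, him] at hn; norm_num at hn
  · have : w.re = 1 := by linarith
    rw [this] at hre; linarith

theorem contDiff_normSq : ContDiff ℝ ∞ fun a : ℂ => normSq a := by
  have : (fun a : ℂ => normSq a) = fun a => a.re * a.re + a.im * a.im := by
    funext a; exact normSq_apply a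
  rw [this]
  have h1 : ContDiff ℝ ∞ fun a : ℂ => a.re := reCLM.contDiff
  have h2 : ContDiff ℝ ∞ fun a : ℂ => a.im := imCLM.contDiff
  exact (h1.mul h1).add (h2.mul h2)

theorem contDiff_nq : ContDiff ℝ ∞ nq :=
  (contDiff_normSq.comp contDiff_fst).add (contDiff_snd.pow 2)

variable {P : Type} [NormedAddCommGroup P] [NormedSpace ℝ P]

theorem contDiffOn_ofReal {s : Set P} {f : P → ℝ} (hf : ContDiffOn ℝ ∞ f s) :
    ContDiffOn ℝ ∞ (fun p => (f p : ℂ)) s := ofRealCLM.contDiff.comp_contDiffOn hf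

theorem contDiffOn_rq {s : Set P} {a : P → ℂ} {b : P → ℝ} {y : P → ℂ × ℝ}
    (ha : ContDiffOn ℝ ∞ a s) (hb : ContDiffOn ℝ ∞ b s) (hy : ContDiffOn ℝ ∞ y s)
    (h : ∀ p ∈ s, normSq (a p) + b p ^ 2 ≠ 0) :
    ContDiffOn ℝ ∞ (fun p => rq (a p) (b p) (y p)) s := by
  have hN : ContDiffOn ℝ ∞ (fun p => normSq (a p)) s := contDiff_normSq.comp_contDiffOn ha
  have hi : ContDiffOn ℝ ∞ (fun p => (normSq (a p) + b p ^ 2)⁻¹) s := (hN.add (hb.pow 2)).inv h
  have y1 := hy.fst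
  have y2 := hy.snd
  have hs : ContDiffOn ℝ ∞ (fun p => star (y p).1) s := conjCLE.contDiff.comp_contDiffOn y1
  have hr : ContDiffOn ℝ ∞ (fun p => (a p * (y p).1).re) s :=
    reCLM.contDiff.comp_contDiffOn (ha.mul y1)
  refine ContDiffOn.prodMk ((contDiffOn_ofReal hi).mul ?_) (hi.mul ?_)
  · exact (((ha.pow 2).mul y1).sub (((contDiffOn_ofReal hb).pow 2).mul hs)).sub
      (((contDiffOn_const.mul ha).mul (contDiffOn_ofReal hb)).mul (contDiffOn_ofReal y2))
  · exact ((hN.sub (hb.pow 2)).mul y2).add ((contDiffOn_const.mul hb).mul hr)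

theorem contDiffOn_qa {s : Set P} {c : P → ℝ} {w : P → ℂ} (hc : ContDiffOn ℝ ∞ c s)
    (hw : ContDiffOn ℝ ∞ w s) : ContDiffOn ℝ ∞ (fun p => qa (c p) (w p)) s :=
  (contDiffOn_ofReal (contDiffOn_const.sub hc)).add ((contDiffOn_ofReal hc).mul hw)

theorem contDiffOn_qb {s : Set P} {c : P → ℝ} {w : P → ℂ} (hc : ContDiffOn ℝ ∞ c s)
    (hw : ContDiffOn ℝ ∞ w s) : ContDiffOn ℝ ∞ (fun p => qb (c p) (w p)) s :=
  (hc.mul (contDiffOn_const.sub hc)).mul
    (contDiffOn_const.sub (reCLM.contDiff.comp_contDiffOn hw))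

theorem qa_zero (w : ℂ) : qa 0 w = 1 := by simp [qa]
theorem qb_zero (w : ℂ) : qb 0 w = 0 := by simp [qb]
theorem qa_one (w : ℂ) : qa 1 w = w := by simp [qa]
theorem qb_one (w : ℂ) : qb 1 w = 0 := by simp [qb]
theorem qa_w_one (c : ℝ) : qa c 1 = 1 := by simp [qa]
theorem qb_w_one (c : ℝ) : qb c 1 = 0 := by simp [qb]

end Pool.Agent.Lib.MP_b2e238_gt.TL
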